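import Pool.Agent.N742.DR.Stm

/-!
The image of the unit circle is not a circle about the origin (helper612).
-/

set_option autoImplicit false

open Set Filter Topology MeasureTheory

namespace Pool.Agent.U612.SF

open Pool.Agent.N229.SC Pool.Agent.N742.DR

theorem hol_cc (hA1 : S_A1) (hA2 : S_A2) : hol cc = mon wW 1 := by
  obtain ⟨a1, -, -, -, a5, a6, -, -, -, a10, -, -, -⟩ := hA1 wW
  obtain ⟨-, -, ⟨b1, -⟩, -, -, -⟩ := hA2
  apply a10
  intro j
  have hcc : ∀ i : ℤ, cf cc i = 1 / 2 * ((if (1 : ℤ) = i then 1 else 0) +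
      (if (-1 : ℤ) = i then 1 else 0)) := by
    intro i
    unfold cc
    rw [a5, a1, a6, a6]
  rw [b1, hcc, hcc, hcc, a6]
  rcases lt_trichotomy j 0 with h | h | h
  · rw [if_neg (by omega), if_neg (by omega), if_neg (by omega)]
  · subst h
    norm_num
  · rw [if_pos h]
    by_cases h1 : j = 1
    · subst h1
      norm_num
    · rw [if_neg (by omega), if_neg (by omega), if_neg (by omega), if_neg (by omega)]
      norm_num

theorem evh_mon (hA1 : S_A1) (z : ℂ) : evh (mon wW 1) z = z := by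
  obtain ⟨-, -, -, -, -, a6, -⟩ := hA1 wW
  unfold evh
  rw [tsum_eq_single 1]
  · rw [a6]
    simp
  · intro k hk
    rw [a6, if_neg (by omega)]
    simp

/-- the first order of the logarithm of the conformal map -/
theorem phi_approx (hA1 : S_A1) (hA2 : S_A2) (hEH : S_EH) {P : Par} {X : ℝ} {h : W}
    (hnu : 0 ≤ P.nu) (hX : ‖h - X • cc‖ ≤ 15 * X ^ 2) {t : ℂ} (ht : ‖t‖ ≤ 1) :
    ‖evh (Phi P h) t - (P.nu * X : ℝ) * t‖ ≤ P.nu * (15 * X ^ 2) := by
  have hR : ∀ j : ℤ, Rad ^ j.natAbs ≤ wW j := by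
    intro j
    unfold wW
    have h1 : (0 : ℝ) < Rad ^ j.natAbs := pow_pos (zero_lt_one.trans_le one_le_Rad) _
    have h2 : (0 : ℝ) ≤ j.natAbs := Nat.cast_nonneg _
    nlinarith [mul_nonneg h1.le h2]
  obtain ⟨-, e2, e3, e4, -, -, -⟩ := hEH wW hR
  have htR : ‖t‖ ≤ Rad := ht.trans one_le_Rad
  have hdec : Phi P h = (P.nu * X) • mon wW 1 + P.nu • hol (h - X • cc) := by
    unfold Phi
    rw [map_sub, map_smul, hol_cc hA1 hA2, smul_sub, smul_smul]
    abel
  obtain ⟨-, -, ⟨-, b2⟩, -, -, -⟩ := hA2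
  rw [hdec, e3 _ _ t htR, e4 _ _ t, e4 _ _ t, evh_mon hA1, add_sub_cancel_left, norm_mul,
    Complex.norm_real, Real.norm_of_nonneg hnu]
  exact mul_le_mul_of_nonneg_left ((e2 _ t htR).trans ((b2 _).trans hX)) hnu

theorem norm_fF {P : Par} {h : W} (hρ : 0 < P.ρ) (z : ℂ) (hz : ‖z‖ = 1) :
    ‖fF P h z‖ = P.ρ * Real.exp ((evh (Phi P h) (z ^ P.n)).re / P.n) := by
  unfold fF
  rw [norm_mul, norm_mul, Complex.norm_real, Real.norm_of_nonneg hρ.le, hz, mul_one,
    Complex.norm_exp]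
  congr 2
  rw [Complex.div_natCast_re]

theorem nc_data (hA1 : S_A1) (hA2 : S_A2) (hEH : S_EH) {P : Par} {X : ℝ} {h v : W}
    {y : ℕ → A} (hF : Full P X h v y) :
    P.ρ < ‖fF P h 1‖ ∧ ∃ z : ℂ, ‖z‖ = 1 ∧ ‖fF P h z‖ < P.ρ := by
  have hρ : 0 < P.ρ := by linarith [hF.good.rho]
  have hnu : 0 < P.nu := by linarith [hF.good.nu1]
  have hn : (0 : ℝ) < P.n := by
    have h1 := hF.good.nu1
    unfold Par.nu at h1
    rw [le_div_iff₀ hρ] at h1
    linarith
  have hn0 : P.n ≠ 0 := by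
    intro h0
    rw [h0, Nat.cast_zero] at hn
    exact lt_irrefl _ hn
  have hX0 := hF.X_pos
  have hX1 := hF.X_le
  have hsm : P.nu * (15 * X ^ 2) < P.nu * X := by
    apply mul_lt_mul_of_pos_left _ hnu
    nlinarith
  constructor
  · rw [norm_fF hρ 1 norm_one, one_pow]
    have h1 := phi_approx hA1 hA2 hEH (P := P) (X := X) (h := h) hnu.le hF.hX
      (t := 1) (by rw [norm_one])
    have h2 := (Complex.abs_re_le_norm _).trans h1
    rw [mul_one, Complex.sub_re, Complex.ofReal_re] at h2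
    have h3 := (abs_le.1 h2).1
    have h4 : 0 < (evh (Phi P h) 1).re / P.n := div_pos (by linarith) hn
    have h5 := Real.add_one_lt_exp h4.ne'
    nlinarith
  · obtain ⟨z, hz⟩ : ∃ z : ℂ, z = Complex.exp ((Real.pi / P.n : ℝ) * Complex.I) := ⟨_, rfl⟩
    have hz1 : ‖z‖ = 1 := by rw [hz, Complex.norm_exp_ofReal_mul_I]
    have hzn : z ^ P.n = -1 := by
      rw [hz, ← Complex.exp_nat_mul]
      have : (P.n : ℂ) * ((Real.pi / P.n : ℝ) * Complex.I) = Real.pi * Complex.I := by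
        push_cast
        have : (P.n : ℂ) ≠ 0 := by exact_mod_cast hn0
        field_simp
      rw [this, Complex.exp_pi_mul_I]
    refine ⟨z, hz1, ?_⟩
    rw [norm_fF hρ z hz1, hzn]
    have h1 := phi_approx hA1 hA2 hEH (P := P) (X := X) (h := h) hnu.le hF.hX
      (t := -1) (by rw [norm_neg, norm_one])
    have h2 := (Complex.abs_re_le_norm _).trans h1
    rw [mul_neg, mul_one, sub_neg_eq_add, Complex.add_re, Complex.ofReal_re] at h2
    have h3 := (abs_le.1 h2).2
    have h4 : (evh (Phi P h) (-1)).re / P.n < 0 := div_neg_of_neg_of_pos (by linarith) hn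
    have h5 : Real.exp ((evh (Phi P h) (-1)).re / P.n) < 1 := by
      rw [← Real.exp_zero]
      exact Real.exp_lt_exp.2 h4
    nlinarith

end Pool.Agent.U612.SF
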