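import Pool.Agent.N742.DR.Stm

/-!
Transfer to the physical plane with the critical curve made explicit (helper612). The proof is the one of
`Pool.Agent.N742.DR.proof_TPH` (helper575), the statement keeps the identity of the curve.
-/

set_option autoImplicit false

open Set Filter Topology MeasureTheory

namespace Pool.Agent.U612.SF

open Pool.Agent.N229.SC Pool.Agent.N742.DR

private theorem tph_log : (8 / 5 : ℝ) < Real.log 5 := by
  rw [Real.lt_log_iff_exp_lt (by norm_num)]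
  by_contra hcon
  push Not at hcon
  have h1 : (5 : ℝ) ^ 5 ≤ Real.exp (8 / 5) ^ 5 := pow_le_pow_left₀ (by norm_num) hcon 5
  have h2 : Real.exp (8 / 5) ^ 5 = Real.exp 1 ^ 8 := by
    rw [← Real.exp_nat_mul, ← Real.exp_nat_mul]
    congr 1
    norm_num
  have h3 : Real.exp 1 ^ 8 ≤ (2.7182818286 : ℝ) ^ 8 :=
    pow_le_pow_left₀ (Real.exp_pos 1).le Real.exp_one_lt_d9.le 8
  rw [h2] at h1
  have h4 : (2.7182818286 : ℝ) ^ 8 < 5 ^ 5 := by norm_num
  linarith

private theorem tph_r5 {P : Par} (hP : Good P) : 1 + 39 / 20 / P.ρ < r5 P := by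
  have h1 := hP.rho
  have h2 := hP.nu2
  have h3 := hP.nu1
  have hρ : 0 < P.ρ := by linarith
  unfold Par.nu at h2 h3
  rw [div_le_iff₀ hρ] at h2
  rw [le_div_iff₀ hρ] at h3
  have hn : (0 : ℝ) < P.n := by linarith
  have h4 : r5 P = Real.exp (Real.log 5 * (P.n : ℝ)⁻¹) := by
    unfold r5
    rw [Real.rpow_def_of_pos (by norm_num)]
  have h5 := Real.add_one_le_exp (Real.log 5 * (P.n : ℝ)⁻¹)
  have h6 : 39 / 20 / P.ρ < Real.log 5 * (P.n : ℝ)⁻¹ := by
    have h7 := tph_log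
    rw [← div_eq_mul_inv, div_lt_div_iff₀ hρ hn]
    nlinarith
  rw [h4]
  linarith

theorem tph2 (hCF5 : S_CF5) (hQF5 : S_QF5) (hIMG : S_IMG) (hINJ : S_INJ) (hFN4 : S_FN4)
    (P : Par) (X : ℝ) (h v : W) (y : ℕ → A) (hB : Big P X h v y) :
    ∃ p : ℕ → ℂ → ℂ, PH P X p (range fun c : Circle => fF P h c) := by
  obtain ⟨hconf, hest, hsymf⟩ := hCF5 P X h v y hB
  obtain ⟨hq1, hq2, hq3, hq4⟩ := hQF5 P X h v y hB
  have hG := hB.full.good
  have hρ4 := hG.rho
  have hρ : 0 < P.ρ := by linarith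
  have hn1 : P.n ≤ 41 / 50 * P.ρ := by
    have := hG.nu2
    unfold Par.nu at this
    rwa [div_le_iff₀ hρ] at this
  have hn2 : 4 / 5 * P.ρ ≤ P.n := by
    have := hG.nu1
    unfold Par.nu at this
    rwa [le_div_iff₀ hρ] at this
  have hn0 : (0 : ℝ) < P.n := by linarith
  have hnN : P.n ≠ 0 := by
    intro h0
    rw [h0] at hn0
    simp at hn0
  have hsm : P.ρ * (2 / (1000 * (P.n : ℝ))) ≤ 1 / 400 := by
    rw [mul_div_assoc', div_le_div_iff₀ (by positivity) (by norm_num)]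
    linarith
  have hsm0 : 2 / (1000 * (P.n : ℝ)) ≤ 1 / 400 := by
    rw [div_le_div_iff₀ (by positivity) (by norm_num)]
    linarith
  obtain ⟨f, hf⟩ : ∃ f : ℂ → ℂ, f = fF P h := ⟨_, rfl⟩
  obtain ⟨r, hr⟩ : ∃ r : ℝ, r = r5 P := ⟨_, rfl⟩
  obtain ⟨s, hs⟩ : ∃ s : ℝ, s = RP P := ⟨_, rfl⟩
  have hs' : s = P.ρ + 19 / 10 := by rw [hs]; rfl
  have hs0 : 0 < s := by rw [hs']; linarith
  rw [← hf, ← hr] at hconf
  rw [← hr] at hest hsymf hq1 hq2 hq3 hq4
  rw [← hf] at hest hsymf hq4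
  have hr1 := hconf.r_gt
  -- the inverse
  obtain ⟨g, hg1, hg2, hg3, q, hq5, hq6⟩ := hIMG P.ρ r s f hconf hs0 (by
    refine ⟨1 + 39 / 20 / P.ρ, by positivity, by rw [hr]; exact tph_r5 hG, fun z hz => ?_⟩
    have hzr : z ∈ Metric.ball (0 : ℂ) r := by
      rw [mem_ball_zero_iff, hz, hr]
      exact tph_r5 hG
    have h1 := (hest z hzr).2.1
    rw [hz] at h1
    refine le_trans ?_ h1
    have h2 : P.ρ * (1 + 39 / 20 / P.ρ) = P.ρ + 39 / 20 := by
      field_simp
    rw [h2, hs']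
    have h3 : (P.ρ + 39 / 20) * (1 - 2 / (1000 * (P.n : ℝ))) =
        P.ρ + 39 / 20 - P.ρ * (2 / (1000 * (P.n : ℝ))) - 39 / 20 * (2 / (1000 * (P.n : ℝ))) := by
      ring
    rw [h3]
    linarith)
  have hder : ∀ z ∈ Metric.ball (0 : ℂ) r, deriv f z ≠ 0 := by
    intro z hz h0
    have h1 := hconf.f_der z hz
    rw [h0, zero_sub, norm_neg, Complex.norm_real, Real.norm_eq_abs, abs_of_pos hρ] at h1
    linarith
  obtain ⟨p, hp⟩ : ∃ p : ℕ → ℂ → ℂ, p = fun i x => evh (qq P h v y i) ((g x) ^ P.n) := ⟨_, rfl⟩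
  have hgm : ∀ x ∈ Metric.ball (0 : ℂ) s, g x ∈ Metric.ball (0 : ℂ) r := fun x hx => (hg2 x hx).1
  have hpd : ∀ i, DifferentiableOn ℂ (p i) (Metric.ball 0 s) := by
    intro i
    have := (hq1 i).comp hg1 hgm
    rw [hp]
    exact this
  have hPd : ∀ i, DifferentiableOn ℂ (PF P X p i) (Metric.ball 0 s) := by
    intro i
    unfold PF
    refine DifferentiableOn.add (DifferentiableOn.add (differentiableOn_const _) ?_) (hpd i)
    refine DifferentiableOn.mul (differentiableOn_const _) ?_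
    exact ((differentiable_id.div_const _).pow _).differentiableOn
  have hQP : ∀ i, ∀ z ∈ Metric.ball (0 : ℂ) r, f z ∈ Metric.ball (0 : ℂ) s →
      QF P X h v y i z = PF P X p i (f z) := by
    intro i z hz hfz
    have h1 : p i (f z) = evh (qq P h v y i) (z ^ P.n) := by
      rw [hp]
      simp only
      rw [hg3 z hz hfz]
    unfold PF
    rw [h1, hf]
    cases i with
    | zero => rfl
    | succ i => rfl
  have hdQ : ∀ i, ∀ z ∈ Metric.ball (0 : ℂ) r, f z ∈ Metric.ball (0 : ℂ) s →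
      deriv (QF P X h v y i) z = deriv (PF P X p i) (f z) * deriv f z := by
    intro i z hz hfz
    have hfd : DifferentiableAt ℂ f z := hconf.f_diff.differentiableAt (Metric.isOpen_ball.mem_nhds hz)
    have h1 : QF P X h v y i =ᶠ[𝓝 z] (PF P X p i) ∘ f := by
      have h2 : ∀ᶠ w in 𝓝 z, w ∈ Metric.ball (0 : ℂ) r := Metric.isOpen_ball.mem_nhds hz
      have h3 : ∀ᶠ w in 𝓝 z, f w ∈ Metric.ball (0 : ℂ) s :=
        hfd.continuousAt.eventually (Metric.isOpen_ball.mem_nhds hfz)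
      filter_upwards [h2, h3] with w hw1 hw2
      exact hQP i w hw1 hw2
    rw [h1.deriv_eq]
    exact deriv_comp z ((hPd i).differentiableAt (Metric.isOpen_ball.mem_nhds hfz)) hfd
  have hcirc : ∀ c : Circle, (c : ℂ) ∈ Metric.ball (0 : ℂ) r := by
    intro c
    rw [mem_ball_zero_iff, Circle.norm_coe]
    exact hr1
  have hcb : ∀ c : Circle, ‖f c‖ < P.ρ + 1 := by
    intro c
    have h1 := (hest c (hcirc c)).2.2
    rw [Circle.norm_coe] at h1
    have h2 : P.ρ * 1 * (1 + 2 / (1000 * (P.n : ℝ))) = P.ρ + P.ρ * (2 / (1000 * (P.n : ℝ))) := by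
      ring
    rw [h2] at h1
    linarith
  have hcs : ∀ c : Circle, f c ∈ Metric.ball (0 : ℂ) s := by
    intro c
    rw [mem_ball_zero_iff, hs']
    have := hcb c
    linarith
  have hSS : ∀ z ∈ Metric.ball (0 : ℂ) r, f z ∈ Metric.ball (0 : ℂ) s →
      SS P.ρ f (QF P X h v y) z = deriv f z * SS P.ρ id (PF P X p) (f z) := by
    intro z hz hfz
    have h2 : eF P.ρ id (f z) = eF P.ρ f z := rfl
    have h3 : PP (fun i => deriv (QF P X h v y i)) (eF P.ρ f z) z =
        deriv f z * PP (fun i => deriv (PF P X p i)) (eF P.ρ f z) (f z) := by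
      unfold PP
      rw [← tsum_mul_left]
      refine tsum_congr fun i => ?_
      beta_reduce
      rw [hdQ i z hz hfz]
      ring
    have h4 : PP (fun i => QF P X h v y (i + 1)) (eF P.ρ f z) z =
        PP (fun i => PF P X p (i + 1)) (eF P.ρ f z) (f z) := by
      unfold PP
      refine tsum_congr fun i => ?_
      beta_reduce
      rw [hQP (i + 1) z hz hfz]
    unfold SS
    rw [h2, h3, h4, deriv_id]
    simp only [id]
    ring
  refine ⟨p, ?_⟩
  rw [← hf]
  refine
    { good := hG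
      bd := hB.full.bd
      X_pos := hB.full.X_pos
      X_le := hB.full.X_le
      p_diff := ?_
      p_bd := ?_
      p_ord := ?_
      p_sym := ?_
      rel := ?_
      K_curve := ?_
      K_sub := ?_
      crit := ?_ }
  · intro i
    rw [← hs]
    exact hpd i
  · intro i x hx
    rw [← hs] at hx
    rw [hp]
    exact hq2 i (g x) (hgm x hx)
  · intro i
    rw [← hs]
    obtain ⟨σ, hσ1, hσ2⟩ := hq3 i
    refine ⟨fun x => q x ^ (P.n + 1) * σ (g x), ?_, ?_⟩
    · exact (hq5.pow _).mul (hσ1.comp hg1 hgm)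
    · intro x hx
      rw [hp]
      simp only
      rw [hσ2 (g x) (hgm x hx), hq6 x hx, mul_pow]
      rw [← hq6 x hx]
      ring
  · intro i x hx ω hω
    rw [← hs] at hx
    have hω1 : ‖ω‖ = 1 := by
      have h1 : ‖ω‖ ^ P.n = 1 := by rw [← norm_pow, hω, norm_one]
      exact (pow_eq_one_iff_of_nonneg (norm_nonneg _) hnN).1 h1
    obtain ⟨h1, h2⟩ := hg2 x hx
    have h3 : ω * g x ∈ Metric.ball (0 : ℂ) r := by
      rw [mem_ball_zero_iff, norm_mul, hω1, one_mul]
      exact mem_ball_zero_iff.1 h1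
    have h4 : f (ω * g x) = ω * x := by rw [hsymf (g x) h1 ω hω, h2]
    have h5 : f (ω * g x) ∈ Metric.ball (0 : ℂ) s := by
      rw [h4, mem_ball_zero_iff, norm_mul, hω1, one_mul]
      exact mem_ball_zero_iff.1 hx
    have h6 := hg3 _ h3 h5
    rw [h4] at h6
    rw [hp]
    simp only
    rw [h6, mul_pow, hω, one_mul]
  · intro i x hx
    rw [← hs] at hx
    obtain ⟨h1, h2⟩ := hg2 x hx
    have h3 := hq4 i (g x) h1
    have h4 : f (g x) ∈ Metric.ball (0 : ℂ) s := by rw [h2]; exact hx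
    rw [hdQ (i + 1) (g x) h1 h4, hQP (i + 1) (g x) h1 h4, hQP i (g x) h1 h4,
      hQP (i + 2) (g x) h1 h4, h2] at h3
    have h5 := hder (g x) h1
    apply mul_left_cancel₀ h5
    linear_combination h3
  · refine ⟨fun c => f c, ?_, ?_, rfl⟩
    · rw [continuous_iff_continuousAt]
      intro c
      have hfd : DifferentiableAt ℂ f c :=
        hconf.f_diff.differentiableAt (Metric.isOpen_ball.mem_nhds (hcirc c))
      have hc : Continuous fun c : Circle => (c : ℂ) := by fun_prop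
      exact ContinuousAt.comp (f := fun c : Circle => (c : ℂ)) hfd.continuousAt hc.continuousAt
    · intro a b hab
      exact Circle.ext ((hINJ P.ρ r f hconf).2 (hcirc a) (hcirc b) hab)
  · rintro x ⟨c, rfl⟩
    rw [mem_ball_zero_iff]
    exact hcb c
  · rintro x ⟨c, rfl⟩
    have h1 := hFN4 P X h v y hB.full c (Circle.norm_coe c)
    rw [← hf, hSS c (hcirc c) (hcs c)] at h1
    exact (mul_eq_zero.1 h1).resolve_left (hder c (hcirc c))

end Pool.Agent.U612.SF
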