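import Mathlib

/-!
Transfer of Schiffer domains from the complex plane to `EuclideanSpace ℝ (Fin 2)` (helper612).
-/

set_option autoImplicit false

open Set Filter Topology MeasureTheory

namespace Pool.Agent.U612.SF

theorem transfer (L : EuclideanSpace ℝ (Fin 2) ≃ₗᵢ[ℝ] ℂ) (Ω : Set ℂ) (h1 : IsOpen Ω)
    (h2 : Bornology.IsBounded Ω) (h3 : IsConnected Ω) (h4 : SimplyConnectedSpace Ω)
    (h5 : Nonempty (frontier Ω ≃ₜ Metric.sphere (0 : ℂ) 1))
    (h6 : ∀ p ∈ frontier Ω, ∃ e g : ℂ, ‖e‖ = 1 ∧ ‖g‖ = 1 ∧ @inner ℝ ℂ _ e g = 0 ∧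
      ∃ s : ℝ, 0 < s ∧ ∃ K : NNReal, ∃ γ : ℝ → ℝ, LipschitzWith K γ ∧
        ∀ x ∈ Metric.ball p s, (x ∈ Ω ↔ γ (@inner ℝ ℂ _ x e) < @inner ℝ ℂ _ x g))
    (h7 : ∀ (a : ℂ) (s : ℝ), Ω ≠ Metric.ball a s)
    (lam c : ℝ) (u : ℂ → ℝ) (G : ℂ → ℂ) (hlam : 0 < lam)
    (w1 : MemLp u 2 (volume.restrict Ω)) (w2 : MemLp G 2 (volume.restrict Ω))
    (w3 : ∀ φ : ℂ → ℝ, ContDiff ℝ 1 φ → HasCompactSupport φ → ∀ v : ℂ,
      ∫ x in Ω, (u x - c) * (fderiv ℝ φ x v) = - ∫ x in Ω, @inner ℝ ℂ _ (G x) v * φ x)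
    (w4 : ∀ φ : ℂ → ℝ, ContDiff ℝ 1 φ → HasCompactSupport φ →
      ∫ x in Ω, fderiv ℝ φ x (G x) = lam * ∫ x in Ω, u x * φ x)
    (w5 : ¬ (u =ᵐ[volume.restrict Ω] 0)) :
    ¬ (∀ Ω : Set (EuclideanSpace ℝ (Fin 2)),
    IsOpen Ω → Bornology.IsBounded Ω → IsConnected Ω → SimplyConnectedSpace Ω →
    Nonempty (frontier Ω ≃ₜ Metric.sphere (0 : EuclideanSpace ℝ (Fin 2)) 1) →
    (∀ p ∈ frontier Ω, ∃ e f : EuclideanSpace ℝ (Fin 2), ‖e‖ = 1 ∧ ‖f‖ = 1 ∧
        @inner ℝ (EuclideanSpace ℝ (Fin 2)) _ e f = 0 ∧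
        ∃ r : ℝ, 0 < r ∧ ∃ K : NNReal, ∃ g : ℝ → ℝ, LipschitzWith K g ∧
          ∀ x ∈ Metric.ball p r,
            (x ∈ Ω ↔ g (@inner ℝ (EuclideanSpace ℝ (Fin 2)) _ x e)
              < @inner ℝ (EuclideanSpace ℝ (Fin 2)) _ x f)) →
    ∀ (lam c : ℝ) (u : EuclideanSpace ℝ (Fin 2) → ℝ)
      (G : EuclideanSpace ℝ (Fin 2) → EuclideanSpace ℝ (Fin 2)),
      0 < lam →
      MeasureTheory.MemLp u 2 (MeasureTheory.volume.restrict Ω) →
      MeasureTheory.MemLp G 2 (MeasureTheory.volume.restrict Ω) →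
      (∀ φ : EuclideanSpace ℝ (Fin 2) → ℝ, ContDiff ℝ 1 φ → HasCompactSupport φ →
        ∀ v : EuclideanSpace ℝ (Fin 2),
          ∫ x in Ω, (u x - c) * (fderiv ℝ φ x v)
            = - ∫ x in Ω, @inner ℝ (EuclideanSpace ℝ (Fin 2)) _ (G x) v * φ x) →
      (∀ φ : EuclideanSpace ℝ (Fin 2) → ℝ, ContDiff ℝ 1 φ → HasCompactSupport φ →
          ∫ x in Ω, fderiv ℝ φ x (G x) = lam * ∫ x in Ω, u x * φ x) →
      ¬ (u =ᵐ[MeasureTheory.volume.restrict Ω] 0) →
      ∃ (a : EuclideanSpace ℝ (Fin 2)) (r : ℝ), Ω = Metric.ball a r) := by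
  intro H
  have hmem : ∀ x, x ∈ L ⁻¹' Ω ↔ L x ∈ Ω := fun x => Iff.rfl
  have himg : L.symm '' Ω = L ⁻¹' Ω := by
    ext x
    constructor
    · rintro ⟨y, hy, rfl⟩
      rw [hmem, LinearIsometryEquiv.apply_symm_apply]
      exact hy
    · intro hx
      exact ⟨L x, hx, L.symm_apply_apply x⟩
  have hfr : frontier (L ⁻¹' Ω) = L ⁻¹' (frontier Ω) :=
    (L.toHomeomorph.preimage_frontier Ω).symm
  have hmp : MeasurePreserving L volume volume := L.measurePreserving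
  have hemb : MeasurableEmbedding L := L.toHomeomorph.measurableEmbedding
  have hmpr : MeasurePreserving L (volume.restrict (L ⁻¹' Ω)) (volume.restrict Ω) :=
    hmp.restrict_preimage h1.measurableSet
  have hint : ∀ F : ℂ → ℝ, ∫ x in L ⁻¹' Ω, F (L x) = ∫ y in Ω, F y := fun F =>
    hmp.setIntegral_preimage_emb hemb F Ω
  have hfd : ∀ (φ : EuclideanSpace ℝ (Fin 2) → ℝ), ContDiff ℝ 1 φ → ∀ (x : EuclideanSpace ℝ (Fin 2))
      (v : ℂ), fderiv ℝ (fun y : ℂ => φ (L.symm y)) (L x) v = fderiv ℝ φ x (L.symm v) := by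
    intro φ hφ x v
    have e1 : HasFDerivAt φ (fderiv ℝ φ x) (L.symm (L x)) := by
      rw [L.symm_apply_apply]
      exact ((hφ.differentiable one_ne_zero) x).hasFDerivAt
    have e2 : HasFDerivAt (fun y : ℂ => L.symm y)
        (L.symm.toContinuousLinearEquiv : ℂ →L[ℝ] EuclideanSpace ℝ (Fin 2)) (L x) :=
      (L.symm.toContinuousLinearEquiv : ℂ →L[ℝ] EuclideanSpace ℝ (Fin 2)).hasFDerivAt
    have e3 := e1.comp (L x) e2
    have e4 : fderiv ℝ (fun y : ℂ => φ (L.symm y)) (L x) = _ := e3.fderiv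
    rw [e4]
    rfl
  have hφc : ∀ (φ : EuclideanSpace ℝ (Fin 2) → ℝ), ContDiff ℝ 1 φ →
      ContDiff ℝ 1 (fun y : ℂ => φ (L.symm y)) := fun φ hφ =>
    hφ.comp L.symm.contDiff
  have hφs : ∀ (φ : EuclideanSpace ℝ (Fin 2) → ℝ), HasCompactSupport φ →
      HasCompactSupport (fun y : ℂ => φ (L.symm y)) := fun φ hφ =>
    hφ.comp_homeomorph L.symm.toHomeomorph
  obtain ⟨a, s, hball⟩ := H (L ⁻¹' Ω) (h1.preimage L.continuous) (by
      rw [← himg]
      exact L.symm.lipschitz.isBounded_image h2)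
    (by
      rw [← himg]
      exact h3.image _ L.symm.continuous.continuousOn)
    (by
      rw [← himg]
      have e : (L.symm '' Ω) ≃ₜ Ω := (L.symm.toHomeomorph.image Ω).symm
      exact e.toHomotopyEquiv.simplyConnectedSpace)
    (by
      obtain ⟨e⟩ := h5
      have e1 : (L ⁻¹' (frontier Ω)) ≃ₜ (frontier Ω) := L.toHomeomorph.sets rfl
      have e2 : (Metric.sphere (0 : EuclideanSpace ℝ (Fin 2)) 1) ≃ₜ (Metric.sphere (0 : ℂ) 1) := by
        refine L.toHomeomorph.sets ?_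
        ext x
        simp
      rw [hfr]
      exact ⟨(e1.trans e).trans e2.symm⟩)
    (by
      intro p hp
      rw [hfr] at hp
      obtain ⟨e, g, he, hg, heg, s, hs, K, γ, hγ, hx⟩ := h6 (L p) hp
      refine ⟨L.symm e, L.symm g, by rw [L.symm.norm_map, he], by rw [L.symm.norm_map, hg],
        by rw [L.symm.inner_map_map, heg], s, hs, K, γ, hγ, fun x hxb => ?_⟩
      have h8 : L x ∈ Metric.ball (L p) s := by
        rw [Metric.mem_ball, L.dist_map]
        exact hxb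
      have h9 : ∀ y : ℂ, @inner ℝ (EuclideanSpace ℝ (Fin 2)) _ x (L.symm y) =
          @inner ℝ ℂ _ (L x) y := by
        intro y
        rw [← L.inner_map_map, L.apply_symm_apply]
      rw [h9, h9, hmem]
      exact hx (L x) h8)
    lam c (fun x => u (L x)) (fun x => L.symm (G (L x))) hlam
    (w1.comp_measurePreserving hmpr)
    (by
      have e1 : MemLp (fun x => G (L x)) 2 (volume.restrict (L ⁻¹' Ω)) :=
        w2.comp_measurePreserving hmpr
      exact (L.symm.toContinuousLinearEquiv : ℂ →L[ℝ] EuclideanSpace ℝ (Fin 2)).comp_memLp' e1)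
    (by
      intro φ hφ hφs' v
      have e1 := w3 (fun y => φ (L.symm y)) (hφc φ hφ) (hφs φ hφs') (L v)
      rw [← hint, ← hint] at e1
      have e2 : (fun x => (u (L x) - c) * (fderiv ℝ (fun y : ℂ => φ (L.symm y)) (L x) (L v))) =
          fun x => (u (L x) - c) * (fderiv ℝ φ x v) := by
        funext x
        rw [hfd φ hφ, L.symm_apply_apply]
      have e3 : (fun x => @inner ℝ ℂ _ (G (L x)) (L v) * φ (L.symm (L x))) =
          fun x => @inner ℝ (EuclideanSpace ℝ (Fin 2)) _ (L.symm (G (L x))) v * φ x := by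
        funext x
        rw [L.symm_apply_apply, ← L.inner_map_map, L.apply_symm_apply]
      rw [e2, e3] at e1
      exact e1)
    (by
      intro φ hφ hφs'
      have e1 := w4 (fun y => φ (L.symm y)) (hφc φ hφ) (hφs φ hφs')
      rw [← hint, ← hint] at e1
      have e2 : (fun x => fderiv ℝ (fun y : ℂ => φ (L.symm y)) (L x) (G (L x))) =
          fun x => fderiv ℝ φ x (L.symm (G (L x))) := by
        funext x
        rw [hfd φ hφ]
      have e3 : (fun x => u (L x) * φ (L.symm (L x))) = fun x => u (L x) * φ x := by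
        funext x
        rw [L.symm_apply_apply]
      rw [e2, e3] at e1
      exact e1)
    (by
      intro h8
      apply w5
      have e1 : ∀ᵐ x ∂(volume.restrict (L ⁻¹' Ω)), u (L x) = 0 := h8
      have e2 : ∀ᵐ y ∂(Measure.map L (volume.restrict (L ⁻¹' Ω))), u y = 0 := by
        rw [hemb.ae_map_iff]
        exact e1
      rw [hmpr.map_eq] at e2
      exact e2)
  refine h7 (L a) s ?_
  have h9 : L '' (L ⁻¹' Ω) = Ω := image_preimage_eq Ω L.surjective
  rw [← h9, hball]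
  exact L.image_ball a s

end Pool.Agent.U612.SF
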