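import Pool.Agent.U612.SF.Lip
import Pool.Agent.N229.SC.Stm

/-!
Classical solutions with vanishing gradient on the boundary are weak solutions (helper612).
-/

set_option autoImplicit false

open Set Filter Topology MeasureTheory

namespace Pool.Agent.U612.SF

open Pool.Agent.N229.SC

theorem weak_of_classical {Ω O : Set ℂ} (hΩ : IsOpen Ω) (hb : Bornology.IsBounded Ω)
    (hO : IsOpen O) (hsub : closure Ω ⊆ O) (hK : volume (frontier Ω) = 0) {u : ℂ → ℝ}
    {S : ℂ → ℂ} {c : ℝ}
    (hu : ∀ x ∈ O, HasFDerivAt u (Complex.reCLM.comp (ContinuousLinearMap.mul ℝ ℂ (S x))) x)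
    (hS : ContDiffOn ℝ 1 S O)
    (hlap : ∀ x ∈ O, (fderiv ℝ S x 1).re - (fderiv ℝ S x Complex.I).im = -(u x))
    (huK : ∀ x ∈ frontier Ω, u x = c) (hSK : ∀ x ∈ frontier Ω, S x = 0) (hc : c ≠ 0)
    (hne : (frontier Ω).Nonempty) :
    Weak Ω 1 c u (fun x => starRingEnd ℂ (S x)) := by
  have hcomp : IsCompact (closure Ω) := hb.isCompact_closure
  have hSc : ContinuousOn S O := hS.continuousOn
  have huc : ContinuousOn u O := fun x hx => (hu x hx).continuousAt.continuousWithinAt
  have hSd : ∀ x ∈ O, HasFDerivAt S (fderiv ℝ S x) x := fun x hx =>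
    ((hS.differentiableOn one_ne_zero).differentiableAt (hO.mem_nhds hx)).hasFDerivAt
  have hfS : ContinuousOn (fderiv ℝ S) O := hS.continuousOn_fderiv_of_isOpen hO le_rfl
  have hfin : volume Ω ≠ ⊤ := hb.measure_lt_top.ne
  haveI : IsFiniteMeasure (volume.restrict Ω) := ⟨by
    rw [Measure.restrict_apply_univ]; exact hb.measure_lt_top⟩
  refine ⟨?_, ?_, ?_, ?_, ?_⟩
  · obtain ⟨C, hC⟩ := hcomp.exists_bound_of_continuousOn (huc.mono hsub)
    refine MemLp.of_bound ((huc.mono (subset_closure.trans hsub)).aestronglyMeasurable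
      hΩ.measurableSet) C ?_
    filter_upwards [ae_restrict_mem hΩ.measurableSet] with x hx
    exact hC x (subset_closure hx)
  · obtain ⟨C, hC⟩ := hcomp.exists_bound_of_continuousOn (hSc.mono hsub)
    have h1 : ContinuousOn (fun x => starRingEnd ℂ (S x)) Ω :=
      Complex.continuous_conj.comp_continuousOn (hSc.mono (subset_closure.trans hsub))
    refine MemLp.of_bound (h1.aestronglyMeasurable hΩ.measurableSet) C ?_
    filter_upwards [ae_restrict_mem hΩ.measurableSet] with x hx
    rw [RCLike.norm_conj]
    exact hC x (subset_closure hx)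
  · intro φ hφ _ v
    have hφd : ∀ x, HasFDerivAt φ (fderiv ℝ φ x) x := fun x =>
      ((hφ.differentiable one_ne_zero) x).hasFDerivAt
    have hφc : Continuous (fderiv ℝ φ) := hφ.continuous_fderiv one_ne_zero
    have hw : ∀ x ∈ O, HasFDerivAt (fun x => (u x - c) * φ x)
        ((u x - c) • fderiv ℝ φ x +
          φ x • (Complex.reCLM.comp (ContinuousLinearMap.mul ℝ ℂ (S x)))) x := by
      intro x hx
      exact ((hu x hx).sub_const c).mul (hφd x)
    have hcont : ContinuousOn (fun x => (u x - c) • fderiv ℝ φ x +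
          φ x • (Complex.reCLM.comp (ContinuousLinearMap.mul ℝ ℂ (S x)))) O := by
      refine ContinuousOn.add ?_ ?_
      · exact (huc.sub continuousOn_const).smul hφc.continuousOn
      · refine hφ.continuous.continuousOn.smul ?_
        exact continuousOn_const.clm_comp ((ContinuousLinearMap.continuous _).comp_continuousOn hSc)
    obtain ⟨h1, h2⟩ := integral_div_zero hΩ hb hsub hK hw hcont (fun x hx => by
      rw [huK x hx, sub_self, zero_mul]) v
    have h3 : ∀ x, ((u x - c) • fderiv ℝ φ x +
          φ x • (Complex.reCLM.comp (ContinuousLinearMap.mul ℝ ℂ (S x)))) v =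
        (u x - c) * (fderiv ℝ φ x v) + @inner ℝ ℂ _ (starRingEnd ℂ (S x)) v * φ x := by
      intro x
      simp only [ContinuousLinearMap.add_apply, ContinuousLinearMap.smul_apply, smul_eq_mul,
        ContinuousLinearMap.comp_apply, ContinuousLinearMap.mul_apply', Complex.reCLM_apply,
        Complex.inner, Complex.conj_conj]
      ring
    simp only [h3] at h1 h2
    have i1 : IntegrableOn (fun x => (u x - c) * (fderiv ℝ φ x v)) Ω := by
      have h4 : ContinuousOn (fun x => (u x - c) * (fderiv ℝ φ x v)) (closure Ω) :=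
        ((huc.mono hsub).sub continuousOn_const).mul
          ((hφc.clm_apply continuous_const).continuousOn)
      exact (h4.integrableOn_compact hcomp).mono_set subset_closure
    have i2 : IntegrableOn (fun x => @inner ℝ ℂ _ (starRingEnd ℂ (S x)) v * φ x) Ω := by
      have h4 := h1.sub i1
      refine h4.congr (ae_of_all _ fun x => ?_)
      simp
    rw [integral_add i1 i2] at h2
    linarith
  · intro φ hφ _
    have hφd : ∀ x, HasFDerivAt φ (fderiv ℝ φ x) x := fun x =>
      ((hφ.differentiable one_ne_zero) x).hasFDerivAt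
    have hφc : Continuous (fderiv ℝ φ) := hφ.continuous_fderiv one_ne_zero
    -- real part
    have hw1 : ∀ x ∈ O, HasFDerivAt (fun x => (S x).re * φ x)
        ((S x).re • fderiv ℝ φ x + φ x • (Complex.reCLM.comp (fderiv ℝ S x))) x := by
      intro x hx
      exact (Complex.reCLM.hasFDerivAt.comp x (hSd x hx)).mul (hφd x)
    have hw2 : ∀ x ∈ O, HasFDerivAt (fun x => (S x).im * φ x)
        ((S x).im • fderiv ℝ φ x + φ x • (Complex.imCLM.comp (fderiv ℝ S x))) x := by
      intro x hx
      exact (Complex.imCLM.hasFDerivAt.comp x (hSd x hx)).mul (hφd x)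
    have hc1 : ContinuousOn (fun x => (S x).re • fderiv ℝ φ x +
        φ x • (Complex.reCLM.comp (fderiv ℝ S x))) O := by
      refine ContinuousOn.add ?_ ?_
      · exact (Complex.continuous_re.comp_continuousOn hSc).smul hφc.continuousOn
      · exact hφ.continuous.continuousOn.smul (continuousOn_const.clm_comp hfS)
    have hc2 : ContinuousOn (fun x => (S x).im • fderiv ℝ φ x +
        φ x • (Complex.imCLM.comp (fderiv ℝ S x))) O := by
      refine ContinuousOn.add ?_ ?_
      · exact (Complex.continuous_im.comp_continuousOn hSc).smul hφc.continuousOn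
      · exact hφ.continuous.continuousOn.smul (continuousOn_const.clm_comp hfS)
    obtain ⟨a1, a2⟩ := integral_div_zero hΩ hb hsub hK hw1 hc1 (fun x hx => by
      rw [hSK x hx, Complex.zero_re, zero_mul]) 1
    obtain ⟨b1, b2⟩ := integral_div_zero hΩ hb hsub hK hw2 hc2 (fun x hx => by
      rw [hSK x hx, Complex.zero_im, zero_mul]) Complex.I
    have h3 : ∫ x in Ω, (((S x).re • fderiv ℝ φ x + φ x • (Complex.reCLM.comp (fderiv ℝ S x))) 1 -
        ((S x).im • fderiv ℝ φ x + φ x • (Complex.imCLM.comp (fderiv ℝ S x))) Complex.I) = 0 := by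
      rw [integral_sub a1 b1, a2, b2, sub_zero]
    have h4 : ∫ x in Ω, (fderiv ℝ φ x (starRingEnd ℂ (S x)) - u x * φ x) = 0 := by
      rw [← h3]
      refine setIntegral_congr_fun hΩ.measurableSet fun x hx => ?_
      have h5 := hlap x (hsub (subset_closure hx))
      have h6 : starRingEnd ℂ (S x) = (S x).re • (1 : ℂ) - (S x).im • Complex.I := by
        apply Complex.ext <;> simp
      rw [h6, map_sub, map_smul, map_smul]
      simp only [ContinuousLinearMap.add_apply, ContinuousLinearMap.smul_apply, smul_eq_mul,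
        ContinuousLinearMap.comp_apply, Complex.reCLM_apply, Complex.imCLM_apply]
      linear_combination (-(φ x)) * h5
    have i1 : IntegrableOn (fun x => fderiv ℝ φ x (starRingEnd ℂ (S x))) Ω := by
      have h5 : ContinuousOn (fun x => fderiv ℝ φ x (starRingEnd ℂ (S x))) (closure Ω) :=
        hφc.continuousOn.clm_apply (Complex.continuous_conj.comp_continuousOn (hSc.mono hsub))
      exact (h5.integrableOn_compact hcomp).mono_set subset_closure
    have i2 : IntegrableOn (fun x => u x * φ x) Ω := by
      have h5 : ContinuousOn (fun x => u x * φ x) (closure Ω) :=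
        (huc.mono hsub).mul hφ.continuous.continuousOn
      exact (h5.integrableOn_compact hcomp).mono_set subset_closure
    rw [integral_sub i1 i2] at h4
    linarith
  · intro h
    have h1 : EqOn u (fun _ => (0 : ℝ)) Ω :=
      Measure.eqOn_open_of_ae_eq h hΩ (huc.mono (subset_closure.trans hsub)) continuousOn_const
    obtain ⟨p, hp⟩ := hne
    have h2 : EqOn u (fun _ => (0 : ℝ)) (closure Ω) :=
      h1.of_subset_closure (huc.mono hsub) continuousOn_const subset_closure subset_rfl
    have h3 := h2 (frontier_subset_closure hp)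
    rw [huK p hp] at h3
    exact hc h3

end Pool.Agent.U612.SF
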