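import Pool.Agent.U612.SF.LipDom
import Pool.Agent.U612.SF.Weak
import Pool.Agent.U612.SF.Nc
import Pool.Agent.U612.SF.Phys
import Pool.Agent.U612.SF.Transfer
import Pool.Agent.N742.DR.Main

/-!
A planar Jordan domain with real analytic boundary which is not a disc and on which the overdetermined
Neumann problem has a nontrivial solution (helper612). The solution of the nonlinear equations comes from the
projects SC (helper229) and DR (helper742).
-/

set_option autoImplicit false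

open Set Filter Topology MeasureTheory

namespace Pool.Agent.U612.SF

open Pool.Agent.N229.SC Pool.Agent.N742.DR

/-- The data. -/
theorem exists_data : ∃ (P : Par) (X : ℝ) (h v : W) (y : ℕ → A), Big P X h v y ∧
    (∃ p : ℕ → ℂ → ℂ, PH P X p (range fun c : Circle => fF P h c)) ∧
    Conf P.ρ (r5 P) (fF P h) ∧
    (∀ z ∈ Metric.ball (0 : ℂ) (r5 P), ‖fF P h z‖ ≤ P.ρ * ‖z‖ * (1 + 2 / (1000 * P.n))) ∧
    (∀ z ∈ Metric.ball (0 : ℂ) (r5 P), ∀ ω : ℂ, ω ^ P.n = 1 → fF P h (ω * z) = ω * fF P h z) ∧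
    P.ρ < ‖fF P h 1‖ ∧ ∃ z : ℂ, ‖z‖ = 1 ∧ ‖fF P h z‖ < P.ρ := by
  have A1 := proof_A1
  have A2 := proof_A2 A1
  have A3 := proof_A3 A1 A2
  have AB := proof_AB
  have B1 := proof_B1 A1 A2 A3
  have B2 := proof_B2 A1 A2 A3 AB B1
  have B3 := proof_B3 A1 A2 A3 AB B1 B2
  have SELF := proof_SELF A1 A2 A3 AB B1 B2
  have CTR := proof_CTR A1 A2 A3 AB B1 B2 B3
  have LX := proof_LX A1 A2 A3 AB B1 B2
  have FIX := proof_FIX A1 A2 SELF CTR LX
  have HG := proof_HG A1 A2 A3 AB B1 B2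
  have VG := proof_VG A1 A2 A3 AB B1 B2
  have YG := proof_YG A1 A2 A3 AB B1 B2
  have RV := proof_RV A1 A2 A3 AB B1 B2
  have GG := proof_GG A1 A2 A3 AB B1 B2 RV
  have SGN := proof_SGN A1 A2 AB HG VG YG RV GG
  have NUM := proof_NUM proof_N1 proof_N2 proof_N3
  have EH := proof_EH A1 A2
  have EV := proof_EV A1 A2 A3
  have FN3 := proof_FN3 A1 A2 A3 AB B1 B2 EH
  have FN4 := proof_FN4 A1 A2 A3 AB B1 B2 EH EV
  have INJ := proof_INJ
  have WG := proof_WG
  have BD1 := proof_BD1 A1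
  have BD2 := proof_BD2 A1 A2
  have BD3 := proof_BD3 A1 A3 WG BD1
  have SB1 := proof_SB1 A1 WG BD1 BD2 BD3
  have SB2 := proof_SB2 A1 A2 AB WG BD1 BD2 SB1
  have SVV := proof_SVV A1 A2 WG BD1 BD2 BD3 SB1 SB2
  have SYY := proof_SYY A1 A2 AB WG BD1 BD2 SB1 SB2
  have SHH := proof_SHH A1 A2 AB B1 WG BD1 BD2 BD3 SB1 SB2 SVV
  have ITR := proof_ITR A1 A2 SELF CTR WG BD1 SVV SYY SHH
  have EXI5 := proof_EXI5 A1 A2 FIX HG SGN
  have EV5 := proof_EV5 A1 A2
  have CF5 := proof_CF5 A1 A2 AB WG SB1 EV5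
  have QF5 := proof_QF5 A1 A2 AB B2 FN3 WG BD1 BD2 SB1 EV5 CF5
  have IMG := proof_IMG INJ
  obtain ⟨P, hG, hbd⟩ := NUM
  obtain ⟨X, h, v, y, hX0, hX1, hX2, hsol, hO, hX3⟩ := EXI5 P hG
  have hfull : Full P X h v y := ⟨hG, hbd, hX0, hX2, hsol, hO, hX3⟩
  have hd5 : D5 X h v y := ITR P X h v y hG hX0 hX1 hX2 hsol
  have hB : Big P X h v y := ⟨hfull, hd5⟩
  obtain ⟨c1, c2, c3⟩ := CF5 P X h v y hB
  exact ⟨P, X, h, v, y, hB, tph2 CF5 QF5 IMG INJ FN4 P X h v y hB, c1,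
    fun z hz => (c2 z hz).2.2, c3, nc_data A1 A2 EH hfull⟩

/-- constancy on the boundary -/
theorem const_bdry {ρ r : ℝ} {f : ℂ → ℂ} (hf : Conf ρ r f) {O : Set ℂ} {u : ℂ → ℝ} {S : ℂ → ℂ}
    (hu : ∀ x ∈ O, HasFDerivAt u (Complex.reCLM.comp (ContinuousLinearMap.mul ℝ ℂ (S x))) x)
    (hO : ∀ z : ℂ, ‖z‖ = 1 → f z ∈ O) (hS : ∀ z : ℂ, ‖z‖ = 1 → S (f z) = 0) (z : ℂ)
    (hz : ‖z‖ = 1) : u (f z) = u (f 1) := by
  have hn : ∀ θ : ℝ, ‖Complex.exp (θ * Complex.I)‖ = 1 := Complex.norm_exp_ofReal_mul_I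
  have hd : ∀ θ : ℝ, HasDerivAt (fun θ : ℝ => u (f (Complex.exp (θ * Complex.I)))) 0 θ := by
    intro θ
    have h1 : HasDerivAt (fun θ : ℝ => Complex.exp (θ * Complex.I))
        (Complex.exp (θ * Complex.I) * Complex.I) θ := by
      have h2 : HasDerivAt (fun θ : ℝ => (θ : ℂ) * Complex.I) Complex.I θ := by
        simpa using (Complex.ofRealCLM.hasDerivAt (x := θ)).mul_const Complex.I
      exact h2.cexp
    have h3 : Complex.exp (θ * Complex.I) ∈ Metric.ball (0 : ℂ) r :=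
      sph_sub hf (mem_sphere_zero_iff_norm.2 (hn θ))
    have h4 : HasDerivAt f (deriv f (Complex.exp (θ * Complex.I))) (Complex.exp (θ * Complex.I)) :=
      (conf_strict hf h3).hasDerivAt
    have h5 := h4.comp_of_eq θ h1 rfl
    have h6 := (hu _ (hO _ (hn θ))).comp_hasDerivAt θ h5
    rw [hS _ (hn θ)] at h6
    have h7 : (Complex.reCLM.comp (ContinuousLinearMap.mul ℝ ℂ 0))
        (deriv f (Complex.exp (θ * Complex.I)) * (Complex.exp (θ * Complex.I) * Complex.I)) = 0 := by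
      rw [map_zero, ContinuousLinearMap.comp_zero]
      rfl
    rw [h7] at h6
    exact h6
  have hc := is_const_of_deriv_eq_zero (fun θ => (hd θ).differentiableAt) (fun θ => (hd θ).deriv)
    (Complex.arg z) 0
  simp only [Complex.ofReal_zero, zero_mul, Complex.exp_zero] at hc
  have h7 : Complex.exp (Complex.arg z * Complex.I) = z := by
    have := Complex.norm_mul_exp_arg_mul_I z
    rwa [hz, Complex.ofReal_one, one_mul] at this
  rwa [h7] at hc

theorem final : FinalC := by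
  obtain ⟨P, X, h, v, y, hB, ⟨p, hP⟩, hconf, hup, hsym, hn1, z2, hz2, hn2⟩ := exists_data
  obtain ⟨f, hf⟩ : ∃ f : ℂ → ℂ, f = fF P h := ⟨_, rfl⟩
  rw [← hf] at hconf hup hsym hn1 hn2 hP
  have hρ4 : (10000 : ℝ) ≤ P.ρ := hP.good.rho
  have hρ : (0 : ℝ) < P.ρ := lt_of_lt_of_le (by norm_num) hρ4
  have hRP : (0 : ℝ) < RP P := by unfold RP; linarith
  have hn8 : (8000 : ℝ) ≤ P.n := by
    have h1 := hP.good.nu1
    unfold Par.nu at h1
    rw [le_div_iff₀ hρ] at h1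
    linarith
  have hn : 2 ≤ P.n := by
    have h2 : (2 : ℝ) ≤ P.n := by linarith
    exact_mod_cast h2
  -- the solution
  obtain ⟨C, hC⟩ := hP.bd
  have hPd : ∀ i, DifferentiableOn ℂ (PF P X p i) (Metric.ball 0 (RP P)) := by
    intro i
    have h1 : DifferentiableOn ℂ (fun x : ℂ => ((BB P i : ℝ) : ℂ) +
        ((X * P.a i : ℝ) : ℂ) * (x / P.ρ) ^ P.n) (Metric.ball 0 (RP P)) := by
      apply Differentiable.differentiableOn
      fun_prop
    exact h1.add (hP.p_diff i)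
  have hPb : ∃ C, ∀ i, ∀ x ∈ Metric.ball (0 : ℂ) (RP P), ‖PF P X p i x‖ ≤ C := by
    have hC0 : 0 ≤ C := (abs_nonneg _).trans (hC 0).1
    have hBB : ∀ i, |BB P i| ≤ |BB P 0| + C := by
      intro i
      cases i with
      | zero => linarith
      | succ i =>
        have h1 : |BB P (i + 1)| ≤ C := (hC i).2
        have h2 := abs_nonneg (BB P 0)
        linarith
    refine ⟨(|BB P 0| + C) + X * C * (RP P / P.ρ) ^ P.n + 23 * X ^ 2, fun i x hx => ?_⟩
    unfold PF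
    refine (norm_add_le _ _).trans (add_le_add ((norm_add_le _ _).trans (add_le_add ?_ ?_))
      (hP.p_bd i x hx))
    · rw [Complex.norm_real, Real.norm_eq_abs]
      exact hBB i
    · rw [norm_mul, Complex.norm_real, Real.norm_eq_abs, abs_mul, abs_of_pos hP.X_pos, norm_pow,
        norm_div, Complex.norm_real, Real.norm_of_nonneg hρ.le]
      have h1 : ‖x‖ / P.ρ ≤ RP P / P.ρ :=
        div_le_div_of_nonneg_right (mem_ball_zero_iff.1 hx).le hρ.le
      exact mul_le_mul (mul_le_mul_of_nonneg_left (hC i).1 hP.X_pos.le)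
        (pow_le_pow_left₀ (by positivity) h1 _) (by positivity)
        (mul_nonneg hP.X_pos.le hC0)
  obtain ⟨hu, hS, hx⟩ := proof_PDE2 proof_PSM P.ρ (RP P) (PF P X p) hρ hRP hPd hPb hP.rel
  obtain ⟨u, hudef⟩ : ∃ u : ℂ → ℝ, u = UU P.ρ id (PF P X p) := ⟨_, rfl⟩
  obtain ⟨S, hSdef⟩ : ∃ S : ℂ → ℂ, S = SS P.ρ id (PF P X p) := ⟨_, rfl⟩
  rw [← hudef] at hu
  rw [← hSdef] at hS
  rw [← hudef, ← hSdef] at hx
  -- sizes
  have hup1 : ∀ z : ℂ, ‖z‖ ≤ 1 → ‖f z‖ ≤ P.ρ + 1 / 100 := by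
    intro z hz
    have h1 := hup z (cball_sub hconf (mem_closedBall_zero_iff.2 hz))
    have h2 : P.ρ * ‖z‖ * (1 + 2 / (1000 * P.n)) ≤ P.ρ * 1 * (1 + 2 / (1000 * P.n)) := by
      have : 0 ≤ 1 + 2 / (1000 * (P.n : ℝ)) := by positivity
      gcongr
    have h3 : P.ρ * 1 * (1 + 2 / (1000 * P.n)) ≤ P.ρ + 1 / 100 := by
      have h4 : P.ρ * (2 / (1000 * (P.n : ℝ))) ≤ 1 / 100 := by
        have h5 := hP.good.nu1
        unfold Par.nu at h5
        rw [le_div_iff₀ hρ] at h5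
        rw [mul_div_assoc', div_le_div_iff₀ (by positivity) (by norm_num)]
        linarith
      linarith
    linarith
  have hcl : closure (Om f) ⊆ Metric.ball 0 (RP P) := by
    rw [om_closure hconf]
    rintro _ ⟨z, hz, rfl⟩
    rw [mem_ball_zero_iff]
    have h1 := hup1 z (mem_closedBall_zero_iff.1 hz)
    unfold RP
    linarith
  have hSK : ∀ z : ℂ, ‖z‖ = 1 → S (f z) = 0 := by
    intro z hz
    rw [hSdef]
    exact hP.crit _ ⟨⟨z, mem_sphere_zero_iff_norm.2 hz⟩, rfl⟩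
  have hfO : ∀ z : ℂ, ‖z‖ = 1 → f z ∈ Metric.ball (0 : ℂ) (RP P) := by
    intro z hz
    rw [mem_ball_zero_iff]
    have h1 := hup1 z hz.le
    unfold RP
    linarith
  have huK : ∀ z : ℂ, ‖z‖ = 1 → u (f z) = u (f 1) := fun z hz =>
    const_bdry hconf (fun x hx' => (hx x hx').1) hfO hSK z hz
  -- the value
  have hval : u (f 1) ≠ 0 := by
    have hr1 := hup1 1 (by rw [norm_one])
    obtain ⟨r, hr⟩ : ∃ r : ℝ, r = ‖f 1‖ := ⟨_, rfl⟩
    rw [← hr] at hr1 hn1
    have hr0 : 0 < r := by linarith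
    obtain ⟨w, hw⟩ : ∃ w : ℂ, w = f 1 / r := ⟨_, rfl⟩
    have hw1 : ‖w‖ = 1 := by
      rw [hw, norm_div, Complex.norm_real, Real.norm_of_nonneg hr0.le, ← hr, div_self hr0.ne']
    have hfw : f 1 = r * w := by
      rw [hw]
      have : (r : ℂ) ≠ 0 := by exact_mod_cast hr0.ne'
      field_simp
    have BES := proof_BES
    have h1 := proof_DEC P X p _ hP r w hr0 (by unfold RP; linarith) hw1
    have h2 := (proof_REM proof_PSM P X p _ hP r w hn1.le (by linarith) hw1).1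
    have h3 := (proof_G0 BES P hP.good hP.bd (r - P.ρ) (by linarith) (by linarith)).1
    have h4 := proof_GN BES P hP.good hP.bd (r - P.ρ) (by linarith) (by linarith)
    rw [add_sub_cancel] at h3 h4
    rw [hudef, hfw, h1]
    have h5 : 1 - (r - P.ρ) ^ 2 / 2 ≤ Real.cos (r - P.ρ) := Real.one_sub_sq_div_two_le_cos
    have h6 : |X * gn P r * (w ^ P.n).re| ≤ X * 2 := by
      rw [abs_mul, abs_of_pos (mul_pos hP.X_pos h4.1)]
      have h7 : |(w ^ P.n).re| ≤ 1 := by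
        refine (Complex.abs_re_le_norm _).trans ?_
        rw [norm_pow, hw1, one_pow]
      have h8 : X * gn P r ≤ X * 2 := mul_le_mul_of_nonneg_left h4.2.1 hP.X_pos.le
      calc X * gn P r * |(w ^ P.n).re| ≤ X * 2 * 1 :=
            mul_le_mul h8 h7 (abs_nonneg _) (mul_nonneg hP.X_pos.le (by norm_num))
        _ = X * 2 := by ring
    have h7 := hP.X_le
    have h8 := (abs_le.1 h3).1
    have h9 := (abs_le.1 h6).1
    have h10 := (abs_le.1 h2).1
    have h11 : (r - P.ρ) ^ 2 ≤ 1 / 100 := by nlinarith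
    have h12 : 0 < g0 P r + X * gn P r * (w ^ P.n).re + rem P p (r * w) := by linarith
    exact h12.ne'
  have hnd : Nd f := by
    refine ⟨?_, 1, z2, norm_one, hz2, ?_⟩
    · have hprim := Complex.isPrimitiveRoot_exp P.n (by omega)
      refine ⟨_, Complex.norm_eq_one_of_pow_eq_one hprim.pow_eq_one (by omega),
        hprim.ne_one (by omega), fun z hz => ?_⟩
      exact hsym z (cball_sub hconf (mem_closedBall_zero_iff.2 hz)) _ hprim.pow_eq_one
    · linarith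
  refine ⟨Om f, om_open hconf, om_bounded hconf, om_connected hconf, om_simply hconf,
    om_sphere hconf, om_lip hconf, om_not_ball hconf hnd, 1, u (f 1), u,
    fun x => starRingEnd ℂ (S x), one_pos, ?_⟩
  refine weak_of_classical (om_open hconf) (om_bounded hconf) Metric.isOpen_ball hcl
    (om_null hconf) (fun x hx' => (hx x hx').1) hS (fun x hx' => (hx x hx').2) ?_ ?_ hval ?_
  · rw [om_frontier hconf]
    rintro _ ⟨z, hz, rfl⟩
    exact huK z (mem_sphere_zero_iff_norm.1 hz)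
  · rw [om_frontier hconf]
    rintro _ ⟨z, hz, rfl⟩
    exact hSK z (mem_sphere_zero_iff_norm.1 hz)
  · rw [om_frontier hconf]
    exact ⟨f 1, 1, mem_sphere_zero_iff_norm.2 norm_one, rfl⟩

end Pool.Agent.U612.SF
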