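import Pool.Agent.U612.SF.Top

/-!
The complement of the closure of the image of the unit disc is connected (helper612).
-/

set_option autoImplicit false

open Set Filter Topology MeasureTheory

namespace Pool.Agent.U612.SF

open Pool.Agent.N229.SC

variable {ρ r : ℝ} {f : ℂ → ℂ}

/-- the radial retraction -/
noncomputable def ret (z : ℂ) : ℂ := ((max 1 ‖z‖)⁻¹ : ℝ) • z

theorem ret_mem (z : ℂ) : ret z ∈ Metric.closedBall (0 : ℂ) 1 := by
  have h1 : (0 : ℝ) < max 1 ‖z‖ := lt_of_lt_of_le one_pos (le_max_left _ _)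
  rw [mem_closedBall_zero_iff, ret, norm_smul, Real.norm_of_nonneg (inv_nonneg.2 h1.le),
    inv_mul_le_iff₀ h1, mul_one]
  exact le_max_right _ _

theorem ret_of_le {z : ℂ} (hz : ‖z‖ ≤ 1) : ret z = z := by
  rw [ret, max_eq_left hz, inv_one, one_smul]

theorem norm_ret_of_ge {z : ℂ} (hz : 1 < ‖z‖) : ‖ret z‖ = 1 := by
  rw [ret, max_eq_right hz.le, norm_smul, norm_inv, norm_norm, inv_mul_cancel₀ (by linarith)]

theorem ret_lip (z w : ℂ) : ‖ret z - ret w‖ ≤ 2 * ‖z - w‖ := by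
  have h1 : (1 : ℝ) ≤ max 1 ‖z‖ := le_max_left _ _
  have h2 : (1 : ℝ) ≤ max 1 ‖w‖ := le_max_left _ _
  have h3 : ‖w‖ ≤ max 1 ‖w‖ := le_max_right _ _
  have h4 : |max 1 ‖z‖ - max 1 ‖w‖| ≤ ‖z - w‖ := by
    have h5 : |max 1 ‖z‖ - max 1 ‖w‖| ≤ |‖z‖ - ‖w‖| := by
      have := abs_max_sub_max_le_max 1 ‖z‖ 1 ‖w‖
      simpa using this
    exact h5.trans (abs_norm_sub_norm_le z w)
  set a := max 1 ‖z‖
  set b := max 1 ‖w‖
  have ha : 0 < a := by linarith
  have hb : 0 < b := by linarith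
  have e : ret z - ret w = (a⁻¹ : ℝ) • (z - w) + ((a⁻¹ - b⁻¹ : ℝ)) • w := by
    change (a⁻¹ : ℝ) • z - (b⁻¹ : ℝ) • w = _
    rw [smul_sub, sub_smul]
    abel
  rw [e]
  refine (norm_add_le _ _).trans ?_
  rw [norm_smul, norm_smul, Real.norm_of_nonneg (inv_nonneg.2 ha.le), Real.norm_eq_abs]
  have h6 : a⁻¹ * ‖z - w‖ ≤ ‖z - w‖ := by
    have : a⁻¹ ≤ 1 := inv_le_one_of_one_le₀ h1
    exact mul_le_of_le_one_left (norm_nonneg _) this
  have h7 : |a⁻¹ - b⁻¹| * ‖w‖ ≤ ‖z - w‖ := by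
    have h8 : a⁻¹ - b⁻¹ = (b - a) / (a * b) := by field_simp
    rw [h8, abs_div, abs_of_pos (mul_pos ha hb), abs_sub_comm]
    calc |a - b| / (a * b) * ‖w‖ ≤ |a - b| / (a * b) * b := by gcongr
      _ = |a - b| / a := by field_simp
      _ ≤ |a - b| / 1 := by gcongr
      _ ≤ ‖z - w‖ := by rw [div_one]; exact h4
  linarith

/-- the extension of `f` to the plane -/
noncomputable def ext (ρ : ℝ) (f : ℂ → ℂ) (z : ℂ) : ℂ := f (ret z) + ρ * (z - ret z)

theorem ext_approx (h : Conf ρ r f) (z w : ℂ) :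
    ‖ext ρ f z - ext ρ f w - ρ * (z - w)‖ ≤ ρ / 5 * ‖z - w‖ := by
  have h1 := (proof_INJ ρ r f h).1 (ret z) (cball_sub h (ret_mem z)) (ret w)
    (cball_sub h (ret_mem w))
  have e : ext ρ f z - ext ρ f w - ρ * (z - w) = f (ret z) - f (ret w) - ρ * (ret z - ret w) := by
    unfold ext
    ring
  rw [e]
  refine h1.trans ?_
  have h2 := ret_lip z w
  have h3 := h.rho_pos
  nlinarith

theorem ext_cont (h : Conf ρ r f) : Continuous (ext ρ f) := by
  have h1 := h.rho_pos
  have h2 : LipschitzWith (Real.toNNReal (6 / 5 * ρ)) (ext ρ f) := by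
    refine LipschitzWith.of_dist_le_mul fun z w => ?_
    rw [Real.coe_toNNReal _ (by positivity), dist_eq_norm, dist_eq_norm]
    have h3 := ext_approx h z w
    have h4 : ‖ext ρ f z - ext ρ f w‖ ≤ ‖ext ρ f z - ext ρ f w - ρ * (z - w)‖ +
        ‖(ρ : ℂ) * (z - w)‖ := by
      calc ‖ext ρ f z - ext ρ f w‖ = ‖(ext ρ f z - ext ρ f w - ρ * (z - w)) +
          (ρ : ℂ) * (z - w)‖ := by ring_nf
        _ ≤ _ := norm_add_le _ _
    rw [norm_mul, Complex.norm_real, Real.norm_of_nonneg h1.le] at h4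
    linarith
  exact h2.continuous

theorem ext_inj (h : Conf ρ r f) : Function.Injective (ext ρ f) := by
  intro z w hzw
  have h1 := h.rho_pos
  have h3 := ext_approx h z w
  rw [hzw, sub_self, zero_sub, norm_neg, norm_mul, Complex.norm_real,
    Real.norm_of_nonneg h1.le] at h3
  have h4 : ‖z - w‖ ≤ 0 := by
    by_contra h5
    push Not at h5
    nlinarith
  exact sub_eq_zero.1 (norm_le_zero_iff.1 h4)

theorem ext_surj (h : Conf ρ r f) : Function.Surjective (ext ρ f) := by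
  intro y
  have hρ := h.rho_pos
  -- the contraction `z ↦ z - (ext z - y) / ρ`
  let g : ℂ → ℂ := fun z => z - (ext ρ f z - y) / ρ
  have hρ' : (ρ : ℂ) ≠ 0 := by exact_mod_cast hρ.ne'
  have hg : ContractingWith (1 / 5 : NNReal) g := by
    refine ⟨by norm_num, LipschitzWith.of_dist_le_mul fun z w => ?_⟩
    rw [dist_eq_norm, dist_eq_norm]
    have e : g z - g w = -(ext ρ f z - ext ρ f w - ρ * (z - w)) / ρ := by
      change (z - (ext ρ f z - y) / ρ) - (w - (ext ρ f w - y) / ρ) = _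
      field_simp
      ring
    rw [e, norm_div, norm_neg, Complex.norm_real, Real.norm_of_nonneg hρ.le, div_le_iff₀ hρ]
    have h1 := ext_approx h z w
    have h2 : ((1 / 5 : NNReal) : ℝ) = 1 / 5 := by norm_num
    rw [h2]
    linarith
  obtain ⟨z, hz, -⟩ := hg.exists_fixedPoint 0 (by rw [edist_dist]; exact ENNReal.ofReal_ne_top)
  refine ⟨z, ?_⟩
  have h3 : z - (ext ρ f z - y) / ρ = z := hz
  have h4 : (ext ρ f z - y) / ρ = 0 := by linear_combination -h3
  rcases div_eq_zero_iff.1 h4 with h5 | h5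
  · exact sub_eq_zero.1 h5
  · exact absurd h5 hρ'

theorem ext_cball (_h : Conf ρ r f) : ext ρ f '' Metric.closedBall 0 1 = f '' Metric.closedBall 0 1 := by
  refine image_congr fun z hz => ?_
  rw [ext, ret_of_le (mem_closedBall_zero_iff.1 hz), sub_self, mul_zero, add_zero]

theorem cball_compl_conn : IsConnected (Metric.closedBall (0 : ℂ) 1)ᶜ := by
  have h1 : IsConnected (Metric.sphere (0 : ℂ) 1) :=
    isConnected_sphere (by rw [Complex.rank_real_complex]; norm_num) 0 zero_le_one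
  have h2 : IsConnected (Ioi (1 : ℝ)) := isConnected_Ioi
  have h3 : (Metric.closedBall (0 : ℂ) 1)ᶜ =
      (fun p : ℝ × ℂ => (p.1 : ℂ) * p.2) '' (Ioi (1 : ℝ) ×ˢ Metric.sphere (0 : ℂ) 1) := by
    ext z
    constructor
    · intro hz
      rw [mem_compl_iff, mem_closedBall_zero_iff, not_le] at hz
      refine ⟨(‖z‖, z / ‖z‖), ⟨hz, ?_⟩, ?_⟩
      · rw [mem_sphere_zero_iff_norm]
        simp only [norm_div, Complex.norm_real, norm_norm]
        exact div_self (by linarith)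
      · have : (‖z‖ : ℂ) ≠ 0 := by
          have : (‖z‖ : ℝ) ≠ 0 := by linarith
          exact_mod_cast this
        change (‖z‖ : ℂ) * (z / ‖z‖) = z
        field_simp
    · rintro ⟨⟨t, w⟩, ⟨ht, hw⟩, rfl⟩
      have ht' : (1 : ℝ) < t := ht
      have hw' : ‖w‖ = 1 := mem_sphere_zero_iff_norm.1 hw
      rw [mem_compl_iff, mem_closedBall_zero_iff, not_le]
      change 1 < ‖(t : ℂ) * w‖
      rw [norm_mul, Complex.norm_real, hw', mul_one, Real.norm_of_nonneg (by linarith)]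
      exact ht'
  rw [h3]
  exact (h2.prod h1).image _ (by fun_prop)

theorem om_compl_conn (h : Conf ρ r f) : IsConnected (closure (Om f))ᶜ := by
  rw [om_closure h, ← ext_cball h, ← image_compl_eq ⟨ext_inj h, ext_surj h⟩]
  exact cball_compl_conn.image _ (ext_cont h).continuousOn

end Pool.Agent.U612.SF
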