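import Mathlib

/-!
Extension by zero of functions which vanish on the boundary of an open set (helper612).
-/

set_option autoImplicit false

open Set Filter Topology MeasureTheory

namespace Pool.Agent.U612.SF

/-- The first point of a segment outside of an open set. -/
theorem exit_point {Ω : Set ℂ} (hΩ : IsOpen Ω) {x y : ℂ} (hx : x ∈ Ω) (hy : y ∉ Ω) :
    ∃ p ∈ frontier Ω, p ∈ segment ℝ x y ∧ segment ℝ x p ⊆ closure Ω := by
  obtain ⟨g, hg⟩ : ∃ g : ℝ → ℂ, g = fun t => AffineMap.lineMap x y t := ⟨_, rfl⟩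
  have hgc : Continuous g := by rw [hg]; exact AffineMap.lineMap_continuous
  have hT : IsClosed (Icc (0 : ℝ) 1 ∩ g ⁻¹' Ωᶜ) :=
    isClosed_Icc.inter (hΩ.isClosed_compl.preimage hgc)
  have h1 : (1 : ℝ) ∈ Icc (0 : ℝ) 1 ∩ g ⁻¹' Ωᶜ := by
    refine ⟨by norm_num, ?_⟩
    simp [hg, hy]
  have hbd : BddBelow (Icc (0 : ℝ) 1 ∩ g ⁻¹' Ωᶜ) := ⟨0, fun t ht => ht.1.1⟩
  obtain ⟨t0, ht0⟩ : ∃ t0 : ℝ, t0 = sInf (Icc (0 : ℝ) 1 ∩ g ⁻¹' Ωᶜ) := ⟨_, rfl⟩
  have hmem : t0 ∈ Icc (0 : ℝ) 1 ∩ g ⁻¹' Ωᶜ := by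
    rw [ht0]
    exact hT.csInf_mem ⟨1, h1⟩ hbd
  have hlt : ∀ t : ℝ, 0 ≤ t → t < t0 → g t ∈ Ω := by
    intro t h0 h2
    by_contra h3
    have h4 : t ∈ Icc (0 : ℝ) 1 ∩ g ⁻¹' Ωᶜ := ⟨⟨h0, by linarith [hmem.1.2]⟩, h3⟩
    have h5 := csInf_le hbd h4
    rw [← ht0] at h5
    linarith
  have ht0pos : 0 < t0 := by
    rcases hmem.1.1.lt_or_eq with h | h
    · exact h
    · exfalso
      apply hmem.2
      rw [← h]
      simpa [hg] using hx
  have hcl : g t0 ∈ closure Ω := by
    have h2 : Tendsto g (𝓝[<] t0) (𝓝 (g t0)) := hgc.continuousAt.mono_left nhdsWithin_le_nhds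
    refine mem_closure_of_tendsto h2 ?_
    have h3 : ∀ᶠ t in 𝓝[<] t0, 0 < t := (lt_mem_nhds ht0pos).filter_mono nhdsWithin_le_nhds
    filter_upwards [h3, self_mem_nhdsWithin] with t h4 h5
    exact hlt t h4.le h5
  refine ⟨g t0, ?_, ?_, ?_⟩
  · rw [hΩ.frontier_eq]
    exact ⟨hcl, hmem.2⟩
  · rw [segment_eq_image_lineMap]
    exact ⟨t0, hmem.1, by rw [hg]⟩
  · intro q hq
    rw [segment_eq_image_lineMap] at hq
    obtain ⟨s, hs, rfl⟩ := hq
    have h2 : AffineMap.lineMap x (g t0) s = g (s * t0) := by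
      rw [hg]
      simp only [AffineMap.lineMap_apply, vsub_eq_sub, vadd_eq_add, Complex.real_smul]
      push_cast
      ring
    rw [h2]
    rcases (mul_le_of_le_one_left ht0pos.le hs.2).lt_or_eq with h3 | h3
    · exact subset_closure (hlt _ (mul_nonneg hs.1 ht0pos.le) h3)
    · rw [h3]
      exact hcl

/-- The extension by zero is Lipschitz. -/
theorem lip_indicator {Ω O : Set ℂ} (hΩ : IsOpen Ω) (hsub : closure Ω ⊆ O) {w : ℂ → ℝ}
    {w' : ℂ → ℂ →L[ℝ] ℝ} (hw : ∀ x ∈ O, HasFDerivAt w (w' x) x) {M : NNReal}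
    (hM : ∀ x ∈ closure Ω, ‖w' x‖ ≤ M) (h0 : ∀ x ∈ frontier Ω, w x = 0) :
    LipschitzWith M (Ω.indicator w) := by
  have hseg : ∀ a b : ℂ, segment ℝ a b ⊆ closure Ω → ‖w b - w a‖ ≤ M * ‖b - a‖ := by
    intro a b hab
    exact (convex_segment a b).norm_image_sub_le_of_norm_hasFDerivWithin_le
      (fun x hx => (hw x (hsub (hab hx))).hasFDerivWithinAt) (fun x hx => hM x (hab hx))
      (left_mem_segment ℝ a b) (right_mem_segment ℝ a b)
  -- a point of `Ω` and a point outside
  have hout : ∀ a b : ℂ, a ∈ Ω → b ∉ Ω → ‖w a‖ ≤ M * ‖a - b‖ := by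
    intro a b ha hb
    obtain ⟨p, hp1, hp2, hp3⟩ := exit_point hΩ ha hb
    have h1 := hseg a p hp3
    rw [h0 p hp1, zero_sub, norm_neg] at h1
    refine h1.trans (mul_le_mul_of_nonneg_left ?_ M.coe_nonneg)
    rw [segment_eq_image_lineMap] at hp2
    obtain ⟨t, ht, rfl⟩ := hp2
    have h2 : AffineMap.lineMap a b t - a = t • (b - a) := by
      simp [AffineMap.lineMap_apply]
    rw [h2, norm_smul, Real.norm_eq_abs, abs_of_nonneg ht.1, norm_sub_rev]
    exact mul_le_of_le_one_left (norm_nonneg _) ht.2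
  refine LipschitzWith.of_dist_le_mul fun x y => ?_
  rw [dist_eq_norm, dist_eq_norm]
  by_cases hx : x ∈ Ω <;> by_cases hy : y ∈ Ω
  · rw [indicator_of_mem hx, indicator_of_mem hy]
    by_cases hs : segment ℝ y x ⊆ closure Ω
    · exact hseg y x hs
    · rw [not_subset] at hs
      obtain ⟨z, hz1, hz2⟩ := hs
      have hz3 : z ∉ Ω := fun h => hz2 (subset_closure h)
      have h1 := hout x z hx hz3
      have h2 := hout y z hy hz3
      have h3 : ‖x - z‖ + ‖y - z‖ = ‖x - y‖ := by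
        rw [segment_eq_image_lineMap] at hz1
        obtain ⟨t, ht, rfl⟩ := hz1
        have h4 : x - AffineMap.lineMap y x t = (1 - t) • (x - y) := by
          simp only [AffineMap.lineMap_apply, vsub_eq_sub, vadd_eq_add, Complex.real_smul]
          push_cast
          ring
        have h5 : y - AffineMap.lineMap y x t = (-t) • (x - y) := by
          simp only [AffineMap.lineMap_apply, vsub_eq_sub, vadd_eq_add, Complex.real_smul]
          push_cast
          ring
        rw [h4, h5, norm_smul, norm_smul, norm_neg, Real.norm_eq_abs, Real.norm_eq_abs,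
          abs_of_nonneg ht.1, abs_of_nonneg (by linarith [ht.2])]
        ring
      calc ‖w x - w y‖ ≤ ‖w x‖ + ‖w y‖ := norm_sub_le _ _
        _ ≤ M * ‖x - z‖ + M * ‖y - z‖ := add_le_add h1 h2
        _ = M * ‖x - y‖ := by rw [← mul_add, h3]
  · rw [indicator_of_mem hx, indicator_of_notMem hy, sub_zero]
    exact hout x y hx hy
  · rw [indicator_of_notMem hx, indicator_of_mem hy, zero_sub, norm_neg, norm_sub_rev]
    exact hout y x hy hx
  · rw [indicator_of_notMem hx, indicator_of_notMem hy, sub_zero, norm_zero]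
    positivity

/-- The integral of a derivative of the extension by zero. -/
theorem integral_div_zero {Ω O : Set ℂ} (hΩ : IsOpen Ω) (hb : Bornology.IsBounded Ω)
    (hsub : closure Ω ⊆ O) (hK : volume (frontier Ω) = 0) {w : ℂ → ℝ}
    {w' : ℂ → ℂ →L[ℝ] ℝ} (hw : ∀ x ∈ O, HasFDerivAt w (w' x) x)
    (hc : ContinuousOn w' O) (h0 : ∀ x ∈ frontier Ω, w x = 0) (v : ℂ) :
    IntegrableOn (fun x => w' x v) Ω ∧ ∫ x in Ω, w' x v = 0 := by
  have hcomp : IsCompact (closure Ω) := hb.isCompact_closure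
  obtain ⟨C, hC⟩ := hcomp.exists_bound_of_continuousOn (hc.mono hsub)
  have hM : ∀ x ∈ closure Ω, ‖w' x‖ ≤ (Real.toNNReal (max C 0) : NNReal) := by
    intro x hx
    rw [Real.coe_toNNReal _ (le_max_right _ _)]
    exact (hC x hx).trans (le_max_left _ _)
  have hL := lip_indicator hΩ hsub hw hM h0
  have hcs : HasCompactSupport (Ω.indicator w) := by
    refine HasCompactSupport.intro hcomp fun x hx => ?_
    exact indicator_of_notMem (fun h => hx (subset_closure h)) _
  have h1 := LipschitzWith.integral_lineDeriv_mul_eq (μ := (volume : Measure ℂ))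
    (LipschitzWith.const (1 : ℝ)) hL hcs (-v)
  have h2 : ∀ x : ℂ, lineDeriv ℝ (fun _ : ℂ => (1 : ℝ)) x (-v) = 0 := by
    intro x
    simp [lineDeriv]
  simp only [h2, zero_mul, integral_zero, neg_neg, mul_one] at h1
  have hae : (fun x => lineDeriv ℝ (Ω.indicator w) x v) =ᵐ[volume]
      Ω.indicator (fun x => w' x v) := by
    have h3 : ∀ᵐ x ∂(volume : Measure ℂ), x ∉ frontier Ω := measure_eq_zero_iff_ae_notMem.1 hK
    filter_upwards [h3] with x hx
    by_cases hxΩ : x ∈ Ω
    · rw [indicator_of_mem hxΩ]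
      have h4 : Ω.indicator w =ᶠ[𝓝 x] w := by
        filter_upwards [hΩ.mem_nhds hxΩ] with y hy
        exact indicator_of_mem hy _
      have h5 : HasFDerivAt (Ω.indicator w) (w' x) x :=
        (hw x (hsub (subset_closure hxΩ))).congr_of_eventuallyEq h4
      exact (h5.hasLineDerivAt v).lineDeriv
    · rw [indicator_of_notMem hxΩ]
      have hxc : x ∉ closure Ω := by
        intro h
        apply hx
        rw [hΩ.frontier_eq]
        exact ⟨h, hxΩ⟩
      have h4 : Ω.indicator w =ᶠ[𝓝 x] fun _ => (0 : ℝ) := by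
        filter_upwards [isClosed_closure.isOpen_compl.mem_nhds hxc] with y hy
        exact indicator_of_notMem (fun h => hy (subset_closure h)) _
      have h5 : HasFDerivAt (Ω.indicator w) (0 : ℂ →L[ℝ] ℝ) x :=
        (hasFDerivAt_const (0 : ℝ) x).congr_of_eventuallyEq h4
      have h6 := (h5.hasLineDerivAt v).lineDeriv
      simpa using h6
  constructor
  · have h3 : ContinuousOn (fun x => w' x v) (closure Ω) :=
      (hc.mono hsub).clm_apply continuousOn_const
    exact (h3.integrableOn_compact hcomp).mono_set subset_closure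
  · rw [integral_congr_ae hae, integral_indicator hΩ.measurableSet] at h1
    exact h1.symm

end Pool.Agent.U612.SF
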