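import Pool.Agent.U612.SF.Top

/-!
The image of the unit disc is a Lipschitz domain (helper612).
-/

set_option autoImplicit false

open Set Filter Topology MeasureTheory

namespace Pool.Agent.U612.SF

open Pool.Agent.N229.SC

variable {ρ r : ℝ} {f : ℂ → ℂ}

theorem inner_eq (x y : ℂ) : @inner ℝ ℂ _ x y = x.re * y.re + x.im * y.im := by
  rw [Complex.inner]
  simp [Complex.mul_re]
  ring

/-- the cone property -/
theorem cone {z0 z w : ℂ} (h : Conf ρ r f) (hz0 : ‖z0‖ = 1) (hz : z ∈ Metric.ball (0 : ℂ) r)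
    (hw : w ∈ Metric.ball (0 : ℂ) r) (hz1 : ‖z‖ < 1) (hzd : ‖z - z0‖ ≤ 1 / 10)
    (hwd : ‖w - z0‖ ≤ 1 / 10)
    (hc : 2 * |@inner ℝ ℂ _ (f w - f z) (Complex.I * z0)| < @inner ℝ ℂ _ (f w - f z) (-z0)) :
    ‖w‖ < 1 := by
  have hρ := h.rho_pos
  obtain ⟨D, hD⟩ : ∃ D : ℂ, D = f w - f z := ⟨_, rfl⟩
  obtain ⟨δ, hδ⟩ : ∃ δ : ℂ, δ = w - z := ⟨_, rfl⟩
  rw [← hD] at hc
  -- |D|² = a² + b²
  obtain ⟨a, ha⟩ : ∃ a : ℝ, a = @inner ℝ ℂ _ D (-z0) := ⟨_, rfl⟩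
  obtain ⟨b, hb⟩ : ∃ b : ℝ, b = @inner ℝ ℂ _ D (Complex.I * z0) := ⟨_, rfl⟩
  rw [← ha, ← hb] at hc
  have hz0' : z0.re ^ 2 + z0.im ^ 2 = 1 := by
    have h1 := Complex.sq_norm z0
    rw [hz0, Complex.normSq_apply] at h1
    nlinarith
  have hab : ‖D‖ ^ 2 = a ^ 2 + b ^ 2 := by
    rw [Complex.sq_norm, Complex.normSq_apply, ha, hb, inner_eq, inner_eq]
    simp only [Complex.neg_re, Complex.neg_im, Complex.mul_re, Complex.mul_im, Complex.I_re,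
      Complex.I_im, zero_mul, one_mul, zero_sub, zero_add]
    linear_combination (-(D.re ^ 2 + D.im ^ 2)) * hz0'
  have ha0 : 0 < a := lt_of_le_of_lt (by positivity) hc
  have hb2 : 4 * b ^ 2 ≤ a ^ 2 := by
    have h1 : (2 * |b|) ^ 2 ≤ a ^ 2 := pow_le_pow_left₀ (by positivity) hc.le 2
    rw [mul_pow, sq_abs] at h1
    linarith
  have hDa : 89 / 100 * ‖D‖ ≤ a := by
    have h1 : (89 / 100 * ‖D‖) ^ 2 ≤ a ^ 2 := by
      rw [mul_pow, hab]
      nlinarith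
    exact (pow_le_pow_iff_left₀ (by positivity) ha0.le two_ne_zero).1 h1
  have h1 := (proof_INJ ρ r f h).1 w hw z hz
  rw [← hD, ← hδ] at h1
  have h2 := conf_low h hw hz
  rw [← hD, ← hδ] at h2
  -- a ≤ ρ ⟨δ, -z0⟩ + ρ/10 ‖δ‖
  have h3 : a = ρ * @inner ℝ ℂ _ δ (-z0) + @inner ℝ ℂ _ (D - ρ * δ) (-z0) := by
    rw [ha, inner_eq, inner_eq, inner_eq]
    simp only [Complex.sub_re, Complex.sub_im, Complex.re_ofReal_mul, Complex.im_ofReal_mul]
    ring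
  have h4 : @inner ℝ ℂ _ (D - ρ * δ) (-z0) ≤ ρ / 10 * ‖δ‖ := by
    refine (real_inner_le_norm _ _).trans ?_
    rw [norm_neg, hz0, mul_one]
    exact h1
  have h5 : 7 / 10 * ‖δ‖ ≤ @inner ℝ ℂ _ δ (-z0) := by
    have h6 : ρ * (7 / 10 * ‖δ‖) ≤ ρ * @inner ℝ ℂ _ δ (-z0) := by nlinarith
    exact le_of_mul_le_mul_left h6 hρ
  -- the norm of w
  have h6 : ‖w‖ ^ 2 = ‖z‖ ^ 2 + 2 * @inner ℝ ℂ _ δ z + ‖δ‖ ^ 2 := by
    rw [Complex.sq_norm, Complex.sq_norm, Complex.sq_norm, Complex.normSq_apply,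
      Complex.normSq_apply, Complex.normSq_apply, inner_eq]
    have : w = z + δ := by rw [hδ]; ring
    rw [this]
    simp only [Complex.add_re, Complex.add_im]
    ring
  have h7 : @inner ℝ ℂ _ δ z = -@inner ℝ ℂ _ δ (-z0) + @inner ℝ ℂ _ δ (z - z0) := by
    rw [inner_eq, inner_eq, inner_eq]
    simp only [Complex.sub_re, Complex.sub_im, Complex.neg_re, Complex.neg_im]
    ring
  have h8 : @inner ℝ ℂ _ δ (z - z0) ≤ ‖δ‖ * (1 / 10) :=
    (real_inner_le_norm _ _).trans (mul_le_mul_of_nonneg_left hzd (norm_nonneg _))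
  have h9 : ‖δ‖ ≤ 2 / 10 := by
    have h10 : δ = (w - z0) - (z - z0) := by rw [hδ]; ring
    rw [h10]
    exact (norm_sub_le _ _).trans (by linarith)
  have h10 : ‖w‖ ^ 2 ≤ ‖z‖ ^ 2 := by
    have h11 := norm_nonneg δ
    nlinarith
  have h11 : ‖w‖ ≤ ‖z‖ := (pow_le_pow_iff_left₀ (norm_nonneg _) (norm_nonneg _) two_ne_zero).1 h10
  linarith

/-- an epigraph -/
theorem epigraph {Ω : Set ℂ} (hΩ : IsOpen Ω) {p e g : ℂ} {s : ℝ} (hs : 0 < s)
    (hp : p ∈ closure Ω) (hg : ‖g‖ = 1) (heg : @inner ℝ ℂ _ e g = 0)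
    (hcone : ∀ x ∈ Metric.ball p s, ∀ y ∈ Metric.ball p s, x ∈ Ω →
      2 * |@inner ℝ ℂ _ (y - x) e| < @inner ℝ ℂ _ (y - x) g → y ∈ Ω) :
    ∃ γ : ℝ → ℝ, LipschitzWith 2 γ ∧
      ∀ x ∈ Metric.ball p s, (x ∈ Ω ↔ γ (@inner ℝ ℂ _ x e) < @inner ℝ ℂ _ x g) := by
  obtain ⟨q, hq1, hq2⟩ : ∃ q, q ∈ Metric.ball p s ∧ q ∈ Ω := by
    rw [Metric.mem_closure_iff] at hp
    obtain ⟨q, hq, hd⟩ := hp s hs
    exact ⟨q, by rw [Metric.mem_ball, dist_comm]; exact hd, hq⟩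
  haveI : Nonempty (↥(Ω ∩ Metric.ball p s)) := ⟨⟨q, hq2, hq1⟩⟩
  obtain ⟨F, hF⟩ : ∃ F : ℝ → ↥(Ω ∩ Metric.ball p s) → ℝ, F = fun t a =>
    @inner ℝ ℂ _ (Subtype.val a) g + 2 * |t - @inner ℝ ℂ _ (Subtype.val a) e| := ⟨_, rfl⟩
  have hbd : ∀ t, BddBelow (range (F t)) := by
    intro t
    refine ⟨-(‖p‖ + s), ?_⟩
    rintro _ ⟨a, rfl⟩
    rw [hF]
    have h1 : -‖(a : ℂ)‖ ≤ @inner ℝ ℂ _ (a : ℂ) g := by
      have h2 := abs_real_inner_le_norm (a : ℂ) g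
      rw [hg, mul_one] at h2
      linarith [neg_abs_le (@inner ℝ ℂ _ (a : ℂ) g)]
    have h2 : ‖(a : ℂ)‖ ≤ ‖p‖ + s := by
      have h3 := a.2.2
      rw [mem_ball_iff_norm] at h3
      have h4 : (a : ℂ) = p + ((a : ℂ) - p) := by ring
      rw [h4]
      exact (norm_add_le _ _).trans (by linarith)
    have h3 := abs_nonneg (t - @inner ℝ ℂ _ (a : ℂ) e)
    simp only
    linarith
  refine ⟨fun t => ⨅ a, F t a, ?_, ?_⟩
  · refine LipschitzWith.of_le_add_mul 2 fun x y => ?_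
    have h1 : (⨅ a, F x a) - (2 : NNReal) * dist x y ≤ ⨅ a, F y a := by
      refine le_ciInf fun a => ?_
      have h2 := ciInf_le (hbd x) a
      have h3 : F x a ≤ F y a + 2 * |x - y| := by
        rw [hF]
        simp only
        have h4 : |x - @inner ℝ ℂ _ (a : ℂ) e| ≤ |x - y| + |y - @inner ℝ ℂ _ (a : ℂ) e| := by
          have h5 : x - @inner ℝ ℂ _ (a : ℂ) e = (x - y) + (y - @inner ℝ ℂ _ (a : ℂ) e) := by ring
          rw [h5]
          exact abs_add_le _ _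
        linarith
      rw [Real.dist_eq]
      push_cast
      linarith
    linarith
  · intro x hx
    constructor
    · intro hxΩ
      have hnh : ∀ᶠ t : ℝ in 𝓝 0, x - t * g ∈ Ω ∩ Metric.ball p s := by
        have h1 : ContinuousAt (fun t : ℝ => x - t * g) 0 := by fun_prop
        refine h1.eventually ((hΩ.inter Metric.isOpen_ball).mem_nhds ?_)
        simp only [Complex.ofReal_zero, zero_mul, sub_zero]
        exact ⟨hxΩ, hx⟩
      obtain ⟨t, ht1, ht2⟩ := ((hnh.filter_mono nhdsWithin_le_nhds).and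
        (self_mem_nhdsWithin : Ioi (0 : ℝ) ∈ 𝓝[>] (0 : ℝ))).exists
      have h1 : (⨅ a, F (@inner ℝ ℂ _ x e) a) ≤ F (@inner ℝ ℂ _ x e) ⟨x - t * g, ht1⟩ :=
        ciInf_le (hbd _) _
      have h2 : F (@inner ℝ ℂ _ x e) ⟨x - t * g, ht1⟩ = @inner ℝ ℂ _ x g - t := by
        rw [hF]
        simp only
        have h3 : @inner ℝ ℂ _ (x - t * g) e = @inner ℝ ℂ _ x e := by
          rw [inner_sub_left]
          have h4 : @inner ℝ ℂ _ ((t : ℂ) * g) e = t * @inner ℝ ℂ _ e g := by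
            rw [inner_eq, inner_eq]
            simp only [Complex.re_ofReal_mul, Complex.im_ofReal_mul]
            ring
          rw [h4, heg]
          ring
        have h4 : @inner ℝ ℂ _ (x - t * g) g = @inner ℝ ℂ _ x g - t := by
          rw [inner_sub_left]
          have h5 : @inner ℝ ℂ _ ((t : ℂ) * g) g = t * ‖g‖ ^ 2 := by
            rw [inner_eq, Complex.sq_norm, Complex.normSq_apply]
            simp only [Complex.re_ofReal_mul, Complex.im_ofReal_mul]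
            ring
          rw [h5, hg]
          ring
        rw [h3, h4, sub_self, abs_zero]
        ring
      rw [h2] at h1
      have h3 : (0 : ℝ) < t := ht2
      simp only
      linarith
    · intro hlt
      obtain ⟨a, ha⟩ := exists_lt_of_ciInf_lt hlt
      rw [hF] at ha
      simp only at ha
      refine hcone a a.2.2 x hx a.2.1 ?_
      rw [inner_sub_left, inner_sub_left]
      linarith

theorem om_lip (h : Conf ρ r f) (p : ℂ) (hp : p ∈ frontier (Om f)) :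
    ∃ e g : ℂ, ‖e‖ = 1 ∧ ‖g‖ = 1 ∧ @inner ℝ ℂ _ e g = 0 ∧
      ∃ s : ℝ, 0 < s ∧ ∃ K : NNReal, ∃ γ : ℝ → ℝ, LipschitzWith K γ ∧
        ∀ x ∈ Metric.ball p s, (x ∈ Om f ↔ γ (@inner ℝ ℂ _ x e) < @inner ℝ ℂ _ x g) := by
  have hpc : p ∈ closure (Om f) := frontier_subset_closure hp
  rw [om_frontier h] at hp
  obtain ⟨z0, hz0, rfl⟩ := hp
  have hz1 : ‖z0‖ = 1 := mem_sphere_zero_iff_norm.1 hz0
  have hz0r : z0 ∈ Metric.ball (0 : ℂ) r := sph_sub h hz0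
  have hUo : IsOpen (f '' (Metric.ball z0 (1 / 10) ∩ Metric.ball 0 r)) :=
    conf_open h (Metric.isOpen_ball.inter Metric.isOpen_ball) inter_subset_right
  have hUm : f z0 ∈ f '' (Metric.ball z0 (1 / 10) ∩ Metric.ball 0 r) :=
    ⟨z0, ⟨Metric.mem_ball_self (by norm_num), hz0r⟩, rfl⟩
  obtain ⟨s, hs, hsU⟩ := Metric.isOpen_iff.1 hUo (f z0) hUm
  have heg : @inner ℝ ℂ _ (Complex.I * z0) (-z0) = 0 := by
    rw [inner_eq]
    simp only [Complex.neg_re, Complex.neg_im, Complex.mul_re, Complex.mul_im, Complex.I_re,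
      Complex.I_im, zero_mul, one_mul, zero_sub, zero_add]
    ring
  have hg : ‖-z0‖ = 1 := by rw [norm_neg, hz1]
  obtain ⟨γ, hγ1, hγ2⟩ := epigraph (om_open h) hs hpc hg heg (by
    intro x hx y hy hxΩ hc
    obtain ⟨z, ⟨hza, hzb⟩, rfl⟩ := hsU hx
    obtain ⟨w, ⟨hwa, hwb⟩, rfl⟩ := hsU hy
    have hz1' : ‖z‖ < 1 := by
      obtain ⟨z', hz', he⟩ := hxΩ
      have h1 := conf_inj h (ball_sub h hz') hzb he
      rw [← h1]
      exact mem_ball_zero_iff.1 hz'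
    have hw1 := cone h hz1 hzb hwb hz1' (mem_ball_iff_norm.1 hza).le (mem_ball_iff_norm.1 hwa).le hc
    exact ⟨w, mem_ball_zero_iff.2 hw1, rfl⟩)
  exact ⟨Complex.I * z0, -z0, by rw [norm_mul, Complex.norm_I, one_mul, hz1], hg, heg, s, hs, 2, γ,
    hγ1, hγ2⟩

end Pool.Agent.U612.SF
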