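import Pool.Agent.U612.SF.Main2
import Pool.Agent.U612.SF.Compl

/-!
Schiffer domains fail the Pompeiu property (helper612).
-/

set_option autoImplicit false

open Set Filter Topology MeasureTheory

namespace Pool.Agent.U612.SF

open Pool.Agent.N229.SC

variable {ρ r : ℝ} {f : ℂ → ℂ}

/-- the extension is a homeomorphism -/
noncomputable def extH (h : Conf ρ r f) : ℂ ≃ₜ ℂ :=
  (Equiv.ofBijective (ext ρ f) ⟨ext_inj h, ext_surj h⟩).toHomeomorphOfIsInducing (by
    have hρ := h.rho_pos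
    have h1 : AntilipschitzWith (Real.toNNReal (4 / 5 * ρ)⁻¹)
        (Equiv.ofBijective (ext ρ f) ⟨ext_inj h, ext_surj h⟩) := by
      refine AntilipschitzWith.of_le_mul_dist fun z w => ?_
      rw [Real.coe_toNNReal _ (by positivity), dist_eq_norm, dist_eq_norm,
        le_inv_mul_iff₀ (by positivity)]
      change 4 / 5 * ρ * ‖z - w‖ ≤ ‖ext ρ f z - ext ρ f w‖
      have h3 := ext_approx h z w
      have h4 : ‖(ρ : ℂ) * (z - w)‖ ≤ ‖ext ρ f z - ext ρ f w - ρ * (z - w)‖ +
          ‖ext ρ f z - ext ρ f w‖ := by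
        calc ‖(ρ : ℂ) * (z - w)‖ = ‖-(ext ρ f z - ext ρ f w - ρ * (z - w)) +
            (ext ρ f z - ext ρ f w)‖ := by ring_nf
          _ ≤ _ := (norm_add_le _ _).trans (by rw [norm_neg])
      rw [norm_mul, Complex.norm_real, Real.norm_of_nonneg hρ.le] at h4
      linarith
    have h2 : Continuous (Equiv.ofBijective (ext ρ f) ⟨ext_inj h, ext_surj h⟩) := ext_cont h
    have h3 : UniformContinuous (Equiv.ofBijective (ext ρ f) ⟨ext_inj h, ext_surj h⟩) := by
      have h4 : LipschitzWith (Real.toNNReal (6 / 5 * ρ)) (ext ρ f) := by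
        refine LipschitzWith.of_dist_le_mul fun z w => ?_
        rw [Real.coe_toNNReal _ (by positivity), dist_eq_norm, dist_eq_norm]
        have h3 := ext_approx h z w
        have h4 : ‖ext ρ f z - ext ρ f w‖ ≤ ‖ext ρ f z - ext ρ f w - ρ * (z - w)‖ +
            ‖(ρ : ℂ) * (z - w)‖ := by
          calc ‖ext ρ f z - ext ρ f w‖ = ‖(ext ρ f z - ext ρ f w - ρ * (z - w)) +
              (ρ : ℂ) * (z - w)‖ := by ring_nf
            _ ≤ _ := norm_add_le _ _
        rw [norm_mul, Complex.norm_real, Real.norm_of_nonneg hρ.le] at h4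
        linarith
      exact h4.uniformContinuous
    exact (h1.isUniformInducing h3).isInducing)

theorem om_interior (h : Conf ρ r f) : interior (closure (Om f)) = Om f := by
  have h1 : closure (Om f) = extH h '' Metric.closedBall 0 1 := by
    rw [om_closure h]
    exact (ext_cball h).symm
  have h2 : Om f = extH h '' Metric.ball 0 1 := by
    refine image_congr fun z hz => ?_
    change f z = ext ρ f z
    rw [ext, ret_of_le (mem_ball_zero_iff.1 hz).le, sub_self, mul_zero, add_zero]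
  rw [h1, ← (extH h).image_interior, interior_closedBall _ one_ne_zero, ← h2]

theorem om_closure_not_ball (h : Conf ρ r f) (hn : Nd f) (a : ℂ) (s : ℝ) :
    closure (Om f) ≠ Metric.closedBall a s := by
  intro h1
  have h2 := om_interior h
  rw [h1] at h2
  by_cases hs : s = 0
  · rw [hs, Metric.closedBall_zero] at h2
    have h3 : (Om f).Nonempty := (om_connected h).nonempty
    rw [← h2, interior_singleton] at h3
    exact not_nonempty_empty h3
  · rw [interior_closedBall _ hs] at h2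
    exact om_not_ball h hn a s h2.symm

theorem plane_wave {Ω : Set ℂ} {c : ℝ} {u : ℂ → ℝ} {G : ℂ → ℂ} (hO : IsOpen Ω)
    (hb : Bornology.IsBounded Ω)
    (hW : Weak Ω 1 c u G) (hc : c ≠ 0) (k : ℂ) (hk : ‖k‖ = 1) (b : ℝ) :
    ∫ x in Ω, Real.cos (@inner ℝ ℂ _ k x + b) = 0 := by
  obtain ⟨w1, w2, w3, w4, -⟩ := hW
  obtain ⟨R, hR⟩ := hb.subset_ball (0 : ℂ)
  have hR' : Ω ⊆ Metric.ball 0 (max R 1) := hR.trans (Metric.ball_subset_ball (le_max_left _ _))
  have hR1 : 0 < max R 1 := lt_of_lt_of_le one_pos (le_max_right _ _)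
  set T := max R 1
  let χ : ContDiffBump (0 : ℂ) := ⟨T, T + 1, hR1, by linarith⟩
  have hχ1 : ∀ x ∈ Ω, ∀ᶠ y in 𝓝 x, χ y = 1 := by
    intro x hx
    filter_upwards [Metric.isOpen_ball.mem_nhds (hR' hx)] with y hy
    exact χ.one_of_mem_closedBall (Metric.ball_subset_closedBall hy)
  have : IsFiniteMeasure (volume.restrict Ω) := ⟨by
    rw [Measure.restrict_apply_univ]; exact hb.measure_lt_top⟩
  have hl : ∀ x : ℂ, HasFDerivAt (fun y : ℂ => @inner ℝ ℂ _ k y + b) (innerSL ℝ k) x := by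
    intro x
    exact ((innerSL ℝ k).hasFDerivAt (x := x)).add_const b
  have hcl : ContDiff ℝ 1 (fun y : ℂ => @inner ℝ ℂ _ k y + b) :=
    ((innerSL ℝ k).contDiff).add contDiff_const
  have hsin : ContDiff ℝ 1 (fun y : ℂ => Real.sin (@inner ℝ ℂ _ k y + b)) :=
    Real.contDiff_sin.comp hcl
  have hcos : ContDiff ℝ 1 (fun y : ℂ => Real.cos (@inner ℝ ℂ _ k y + b)) :=
    Real.contDiff_cos.comp hcl
  have hχc : ContDiff ℝ 1 (χ : ℂ → ℝ) := χ.contDiff
  have hχs : HasCompactSupport (χ : ℂ → ℝ) := χ.hasCompactSupport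
  have k1 : @inner ℝ ℂ _ k k = 1 := by
    rw [real_inner_self_eq_norm_sq, hk, one_pow]
  -- the first identity
  have e3 := w3 (fun y => χ y * Real.sin (@inner ℝ ℂ _ k y + b)) (hχc.mul hsin)
    hχs.mul_right k
  have e4 := w4 (fun y => χ y * Real.cos (@inner ℝ ℂ _ k y + b)) (hχc.mul hcos)
    hχs.mul_right
  have d3 : ∀ x ∈ Ω, fderiv ℝ (fun y : ℂ => χ y * Real.sin (@inner ℝ ℂ _ k y + b)) x k =
      Real.cos (@inner ℝ ℂ _ k x + b) := by
    intro x hx
    have h1 : HasFDerivAt (fun y : ℂ => χ y * Real.sin (@inner ℝ ℂ _ k y + b))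
        (Real.cos (@inner ℝ ℂ _ k x + b) • innerSL ℝ k) x := by
      have h2 : HasFDerivAt (fun y : ℂ => Real.sin (@inner ℝ ℂ _ k y + b))
          (Real.cos (@inner ℝ ℂ _ k x + b) • innerSL ℝ k) x := (hl x).sin
      refine h2.congr_of_eventuallyEq ?_
      filter_upwards [hχ1 x hx] with y hy
      rw [hy, one_mul]
    rw [h1.fderiv]
    simp only [_root_.smul_apply, innerSL_apply_apply, smul_eq_mul]
    rw [k1, mul_one]
  have d4 : ∀ x ∈ Ω, ∀ v, fderiv ℝ (fun y : ℂ => χ y * Real.cos (@inner ℝ ℂ _ k y + b)) x v =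
      -Real.sin (@inner ℝ ℂ _ k x + b) * @inner ℝ ℂ _ k v := by
    intro x hx v
    have h1 : HasFDerivAt (fun y : ℂ => χ y * Real.cos (@inner ℝ ℂ _ k y + b))
        (-Real.sin (@inner ℝ ℂ _ k x + b) • innerSL ℝ k) x := by
      have h2 : HasFDerivAt (fun y : ℂ => Real.cos (@inner ℝ ℂ _ k y + b))
          (-Real.sin (@inner ℝ ℂ _ k x + b) • innerSL ℝ k) x := (hl x).cos
      refine h2.congr_of_eventuallyEq ?_
      filter_upwards [hχ1 x hx] with y hy
      rw [hy, one_mul]
    rw [h1.fderiv]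
    simp only [_root_.smul_apply, innerSL_apply_apply, smul_eq_mul]
  have hm := hO.measurableSet
  have a1 : ∫ x in Ω, (u x - c) * (fderiv ℝ (fun y : ℂ => χ y *
      Real.sin (@inner ℝ ℂ _ k y + b)) x k) = ∫ x in Ω, (u x - c) *
      Real.cos (@inner ℝ ℂ _ k x + b) :=
    setIntegral_congr_fun hm fun x hx => by simp only [d3 x hx]
  have a2 : ∫ x in Ω, @inner ℝ ℂ _ (G x) k * (χ x * Real.sin (@inner ℝ ℂ _ k x + b)) =
      ∫ x in Ω, @inner ℝ ℂ _ (G x) k * Real.sin (@inner ℝ ℂ _ k x + b) :=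
    setIntegral_congr_fun hm fun x hx => by
      simp only [(hχ1 x hx).self_of_nhds, one_mul]
  have a3 : ∫ x in Ω, fderiv ℝ (fun y : ℂ => χ y * Real.cos (@inner ℝ ℂ _ k y + b)) x (G x) =
      ∫ x in Ω, -(@inner ℝ ℂ _ (G x) k * Real.sin (@inner ℝ ℂ _ k x + b)) :=
    setIntegral_congr_fun hm fun x hx => by
      simp only [d4 x hx, real_inner_comm k (G x)]
      ring
  have a4 : ∫ x in Ω, u x * (χ x * Real.cos (@inner ℝ ℂ _ k x + b)) =
      ∫ x in Ω, u x * Real.cos (@inner ℝ ℂ _ k x + b) :=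
    setIntegral_congr_fun hm fun x hx => by
      simp only [(hχ1 x hx).self_of_nhds, one_mul]
  rw [a1, a2] at e3
  rw [a3, a4, integral_neg, one_mul] at e4
  -- comparison
  have i1 : Integrable (fun x => u x * Real.cos (@inner ℝ ℂ _ k x + b)) (volume.restrict Ω) := by
    have hu : Integrable u (volume.restrict Ω) := w1.integrable (by norm_num)
    refine hu.mul_bdd (c := 1) hcos.continuous.aestronglyMeasurable (ae_of_all _ fun x => ?_)
    rw [Real.norm_eq_abs]
    exact Real.abs_cos_le_one _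
  have i2 : Integrable (fun x => c * Real.cos (@inner ℝ ℂ _ k x + b)) (volume.restrict Ω) := by
    refine (Integrable.of_bound (C := 1) hcos.continuous.aestronglyMeasurable
      (ae_of_all _ fun x => ?_)).const_mul c
    rw [Real.norm_eq_abs]
    exact Real.abs_cos_le_one _
  have e5 : ∫ x in Ω, (u x - c) * Real.cos (@inner ℝ ℂ _ k x + b) =
      (∫ x in Ω, u x * Real.cos (@inner ℝ ℂ _ k x + b)) -
        c * ∫ x in Ω, Real.cos (@inner ℝ ℂ _ k x + b) := by
    rw [← integral_const_mul, ← integral_sub i1 i2]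
    refine integral_congr_ae (ae_of_all _ fun x => ?_)
    simp only
    ring
  rw [e5, e4] at e3
  have e6 : c * ∫ x in Ω, Real.cos (@inner ℝ ℂ _ k x + b) = 0 := by linarith
  exact (mul_eq_zero.1 e6).resolve_left hc

theorem plane_wave_closure {ρ r c : ℝ} {f : ℂ → ℂ} {u : ℂ → ℝ} {G : ℂ → ℂ} (h : Conf ρ r f)
    (hW : Weak (Om f) 1 c u G) (hc : c ≠ 0) (k : ℂ) (hk : ‖k‖ = 1) (b : ℝ) :
    ∫ x in closure (Om f), Real.cos (@inner ℝ ℂ _ k x + b) = 0 := by
  rw [← plane_wave (om_open h) (om_bounded h) hW hc k hk b]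
  refine setIntegral_congr_set ?_
  have h1 : closure (Om f) = Om f ∪ frontier (Om f) := closure_eq_self_union_frontier _
  rw [h1]
  exact union_ae_eq_left_of_ae_eq_empty (ae_eq_empty.2 (om_null h))

end Pool.Agent.U612.SF
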