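import Pool.Agent.N229.SC.INJ

/-!
Topology of the image of the unit disc (helper612).
-/

set_option autoImplicit false

open Set Filter Topology MeasureTheory

namespace Pool.Agent.U612.SF

open Pool.Agent.N229.SC

variable {ρ r : ℝ} {f : ℂ → ℂ}

theorem conf_low (h : Conf ρ r f) {z w : ℂ} (hz : z ∈ Metric.ball (0 : ℂ) r)
    (hw : w ∈ Metric.ball (0 : ℂ) r) : 9 / 10 * ρ * ‖z - w‖ ≤ ‖f z - f w‖ := by
  have h1 := (proof_INJ ρ r f h).1 z hz w hw
  have h2 : ‖(ρ : ℂ) * (z - w)‖ ≤ ‖f z - f w‖ + ‖f z - f w - ρ * (z - w)‖ := by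
    have h3 : (ρ : ℂ) * (z - w) = (f z - f w) - (f z - f w - ρ * (z - w)) := by ring
    calc ‖(ρ : ℂ) * (z - w)‖ = ‖(f z - f w) - (f z - f w - ρ * (z - w))‖ := by rw [← h3]
      _ ≤ _ := norm_sub_le _ _
  rw [norm_mul, Complex.norm_real, Real.norm_of_nonneg h.rho_pos.le] at h2
  linarith

theorem conf_up (h : Conf ρ r f) {z w : ℂ} (hz : z ∈ Metric.ball (0 : ℂ) r)
    (hw : w ∈ Metric.ball (0 : ℂ) r) : ‖f z - f w‖ ≤ 11 / 10 * ρ * ‖z - w‖ := by
  have h1 := (proof_INJ ρ r f h).1 z hz w hw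
  have h2 : ‖f z - f w‖ ≤ ‖f z - f w - ρ * (z - w)‖ + ‖(ρ : ℂ) * (z - w)‖ := by
    calc ‖f z - f w‖ = ‖(f z - f w - ρ * (z - w)) + (ρ : ℂ) * (z - w)‖ := by ring_nf
      _ ≤ _ := norm_add_le _ _
  rw [norm_mul, Complex.norm_real, Real.norm_of_nonneg h.rho_pos.le] at h2
  linarith

theorem conf_der_ne (h : Conf ρ r f) {z : ℂ} (hz : z ∈ Metric.ball (0 : ℂ) r) :
    deriv f z ≠ 0 := by
  intro h0
  have h1 := h.f_der z hz
  rw [h0, zero_sub, norm_neg, Complex.norm_real, Real.norm_of_nonneg h.rho_pos.le] at h1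
  linarith [h.rho_pos]

theorem conf_strict (h : Conf ρ r f) {z : ℂ} (hz : z ∈ Metric.ball (0 : ℂ) r) :
    HasStrictDerivAt f (deriv f z) z :=
  (h.f_diff.analyticAt (Metric.isOpen_ball.mem_nhds hz)).hasStrictDerivAt

theorem conf_open (h : Conf ρ r f) {U : Set ℂ} (hU : IsOpen U) (hs : U ⊆ Metric.ball 0 r) :
    IsOpen (f '' U) := by
  rw [isOpen_iff_mem_nhds]
  rintro _ ⟨z, hz, rfl⟩
  rw [← (conf_strict h (hs hz)).map_nhds_eq (conf_der_ne h (hs hz))]
  exact image_mem_map (hU.mem_nhds hz)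

theorem conf_cont (h : Conf ρ r f) : ContinuousOn f (Metric.ball 0 r) := h.f_diff.continuousOn

theorem conf_inj (h : Conf ρ r f) : InjOn f (Metric.ball 0 r) := (proof_INJ ρ r f h).2

/-- `f` is a homeomorphism onto its image. -/
theorem conf_homeo (h : Conf ρ r f) {U : Set ℂ} (hs : U ⊆ Metric.ball 0 r) :
    Nonempty (U ≃ₜ (f '' U)) := by
  have hρ := h.rho_pos
  refine ⟨(Equiv.Set.imageOfInjOn f U ((conf_inj h).mono hs)).toHomeomorphOfIsInducing ?_⟩
  have h1 : AntilipschitzWith (Real.toNNReal (9 / 10 * ρ)⁻¹)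
      (Equiv.Set.imageOfInjOn f U ((conf_inj h).mono hs)) := by
    refine AntilipschitzWith.of_le_mul_dist fun a b => ?_
    have h2 := conf_low h (hs a.2) (hs b.2)
    rw [Real.coe_toNNReal _ (by positivity)]
    rw [Subtype.dist_eq, Subtype.dist_eq, dist_eq_norm, dist_eq_norm]
    have h3 : ((Equiv.Set.imageOfInjOn f U ((conf_inj h).mono hs) a : f '' U) : ℂ) = f a := rfl
    have h4 : ((Equiv.Set.imageOfInjOn f U ((conf_inj h).mono hs) b : f '' U) : ℂ) = f b := rfl
    rw [h3, h4, le_inv_mul_iff₀ (by positivity)]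
    exact h2
  have h2 : LipschitzWith (Real.toNNReal (11 / 10 * ρ))
      (Equiv.Set.imageOfInjOn f U ((conf_inj h).mono hs)) := by
    refine LipschitzWith.of_dist_le_mul fun a b => ?_
    have h2 := conf_up h (hs a.2) (hs b.2)
    rw [Real.coe_toNNReal _ (by positivity)]
    rw [Subtype.dist_eq, Subtype.dist_eq, dist_eq_norm, dist_eq_norm]
    exact h2
  exact (h1.isUniformInducing h2.uniformContinuous).isInducing

theorem ball_sub (h : Conf ρ r f) : Metric.ball (0 : ℂ) 1 ⊆ Metric.ball 0 r :=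
  Metric.ball_subset_ball h.r_gt.le

theorem cball_sub (h : Conf ρ r f) : Metric.closedBall (0 : ℂ) 1 ⊆ Metric.ball 0 r :=
  Metric.closedBall_subset_ball h.r_gt

theorem sph_sub (h : Conf ρ r f) : Metric.sphere (0 : ℂ) 1 ⊆ Metric.ball 0 r :=
  Metric.sphere_subset_closedBall.trans (cball_sub h)

theorem om_open (h : Conf ρ r f) : IsOpen (Om f) := conf_open h Metric.isOpen_ball (ball_sub h)

theorem om_closure (h : Conf ρ r f) : closure (Om f) = f '' Metric.closedBall 0 1 := by
  apply subset_antisymm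
  · refine closure_minimal (image_mono Metric.ball_subset_closedBall) ?_
    exact ((isCompact_closedBall (0 : ℂ) 1).image_of_continuousOn
      ((conf_cont h).mono (cball_sub h))).isClosed
  · have h1 : Metric.closedBall (0 : ℂ) 1 = closure (Metric.ball 0 1) :=
      (closure_ball (0 : ℂ) one_ne_zero).symm
    rw [h1]
    apply ContinuousOn.image_closure
    rw [← h1]
    exact (conf_cont h).mono (cball_sub h)

theorem om_bounded (h : Conf ρ r f) : Bornology.IsBounded (Om f) := by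
  refine Bornology.IsBounded.subset ?_ subset_closure
  rw [om_closure h]
  exact ((isCompact_closedBall (0 : ℂ) 1).image_of_continuousOn
      ((conf_cont h).mono (cball_sub h))).isBounded

theorem om_frontier (h : Conf ρ r f) : frontier (Om f) = f '' Metric.sphere 0 1 := by
  rw [(om_open h).frontier_eq, om_closure h]
  unfold Om
  rw [← ((conf_inj h).mono (cball_sub h)).image_diff_subset Metric.ball_subset_closedBall]
  rw [Metric.closedBall_diff_ball]

theorem om_connected (h : Conf ρ r f) : IsConnected (Om f) := by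
  refine IsConnected.image ?_ f ((conf_cont h).mono (ball_sub h))
  exact ⟨Metric.nonempty_ball.2 one_pos, (convex_ball (0 : ℂ) 1).isPreconnected⟩

theorem om_simply (h : Conf ρ r f) : SimplyConnectedSpace (Om f) := by
  obtain ⟨e⟩ := conf_homeo h (ball_sub h)
  haveI : ContractibleSpace (Metric.ball (0 : ℂ) 1) :=
    (convex_ball (0 : ℂ) 1).contractibleSpace (Metric.nonempty_ball.2 one_pos)
  haveI : ContractibleSpace (Om f) := e.symm.contractibleSpace
  infer_instance

theorem om_sphere (h : Conf ρ r f) : Nonempty (frontier (Om f) ≃ₜ Metric.sphere (0 : ℂ) 1) := by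
  obtain ⟨e⟩ := conf_homeo h (sph_sub h)
  rw [om_frontier h]
  exact ⟨e.symm⟩

/-- the frontier is a null set -/
theorem om_null (h : Conf ρ r f) : volume (frontier (Om f)) = 0 := by
  rw [om_frontier h]
  refine addHaar_image_eq_zero_of_differentiableOn_of_addHaar_eq_zero (volume : Measure ℂ) ?_
    (Measure.addHaar_sphere _ _ _)
  have h1 : DifferentiableOn ℝ f (Metric.ball 0 r) := h.f_diff.restrictScalars ℝ
  exact h1.mono (sph_sub h)

theorem ball_center {a b : ℂ} {s : ℝ} (hs : 0 < s) (h : Metric.ball b s ⊆ Metric.ball a s) :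
    b = a := by
  by_contra hne
  have h1 : 0 < ‖b - a‖ := norm_pos_iff.2 (sub_ne_zero.2 hne)
  have h2 : ∀ t : ℝ, 0 ≤ t → t < s → ‖b - a‖ + t < s := by
    intro t ht0 hts
    have h3 : b + (t / ‖b - a‖ : ℝ) * (b - a) ∈ Metric.ball b s := by
      rw [mem_ball_iff_norm, add_sub_cancel_left, norm_mul, Complex.norm_real,
        Real.norm_of_nonneg (by positivity), div_mul_cancel₀ _ h1.ne']
      exact hts
    have h4 := h h3
    rw [mem_ball_iff_norm] at h4
    have h5 : b + (t / ‖b - a‖ : ℝ) * (b - a) - a = ((1 + t / ‖b - a‖ : ℝ) : ℂ) * (b - a) := by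
      push_cast
      ring
    rw [h5, norm_mul, Complex.norm_real, Real.norm_of_nonneg (by positivity), add_mul, one_mul,
      div_mul_cancel₀ _ h1.ne'] at h4
    exact h4
  rcases le_or_gt s ‖b - a‖ with h3 | h3
  · have := h2 0 le_rfl hs
    linarith
  · have := h2 (s - ‖b - a‖) (by linarith) (by linarith)
    linarith

theorem om_not_ball (h : Conf ρ r f) (hn : Nd f) (a : ℂ) (s : ℝ) : Om f ≠ Metric.ball a s := by
  intro he
  have hs : 0 < s := by
    rw [← Metric.nonempty_ball (x := a), ← he]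
    exact (om_connected h).nonempty
  obtain ⟨ω, hω, hω1, hsym⟩ := hn.sym
  have hsub : Metric.ball (ω * a) s ⊆ Metric.ball a s := by
    intro x hx
    have h1 : ω⁻¹ * x ∈ Metric.ball a s := by
      rw [mem_ball_iff_norm] at hx ⊢
      have hω0 : ω ≠ 0 := by
        intro h0
        rw [h0, norm_zero] at hω
        exact zero_ne_one hω
      have h2 : ω⁻¹ * x - a = ω⁻¹ * (x - ω * a) := by
        field_simp
      rw [h2, norm_mul, norm_inv, hω, inv_one, one_mul]
      exact hx
    rw [← he] at h1 ⊢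
    obtain ⟨z, hz, hz2⟩ := h1
    have hz1 : ‖z‖ ≤ 1 := (mem_ball_zero_iff.1 hz).le
    refine ⟨ω * z, ?_, ?_⟩
    · rw [mem_ball_zero_iff, norm_mul, hω, one_mul]
      exact mem_ball_zero_iff.1 hz
    · rw [hsym z hz1, hz2, mul_inv_cancel_left₀]
      intro h0
      rw [h0, norm_zero] at hω
      exact zero_ne_one hω
  have hc := ball_center hs hsub
  have ha : a = 0 := by
    have h1 : (ω - 1) * a = 0 := by
      rw [sub_mul, hc, one_mul, sub_self]
    exact (mul_eq_zero.1 h1).resolve_left (sub_ne_zero.2 hω1)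
  obtain ⟨z₁, z₂, hz1, hz2, hne⟩ := hn.nc
  apply hne
  have hfr : f '' Metric.sphere 0 1 = Metric.sphere (0 : ℂ) s := by
    rw [← om_frontier h, he, ha, frontier_ball (0 : ℂ) hs.ne']
  have h1 : ∀ z : ℂ, ‖z‖ = 1 → ‖f z‖ = s := by
    intro z hz
    have h2 : f z ∈ Metric.sphere (0 : ℂ) s := by
      rw [← hfr]
      exact ⟨z, mem_sphere_zero_iff_norm.2 hz, rfl⟩
    exact mem_sphere_zero_iff_norm.1 h2
  rw [h1 z₁ hz1, h1 z₂ hz2]

end Pool.Agent.U612.SF
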